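import Pool.Agent.Lib.MP_452a87_nt.SGA.Spec

/-!
# Theorem SGA, module SAi: algebraically independent power series
-/

set_option autoImplicit false

namespace Pool.Agent.SGA

open MvPolynomial Pool.Agent.SMQ Pool.Agent.SG

namespace SAiAux

/-- The power series with the beginning `c + w t` and the tail given by the set `s`. -/
noncomputable def ps (c w : ℚ) (s : Set ℕ) : PowerSeries ℚ :=
  open Classical in
  PowerSeries.mk fun n => if n = 0 then c else if n = 1 then w else if n - 2 ∈ s then 1 else 0

theorem ps_inj (c w : ℚ) : Function.Injective (ps c w) := by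
  intro s t h
  ext n
  have h1 := congrArg (PowerSeries.coeff (n + 2)) h
  have e0 : n + 2 ≠ 0 := by omega
  have e1 : n + 2 ≠ 1 := by omega
  rw [ps, ps, PowerSeries.coeff_mk, PowerSeries.coeff_mk, if_neg e0, if_neg e1,
    if_neg e0, if_neg e1, Nat.add_sub_cancel] at h1
  by_cases hs : n ∈ s <;> by_cases ht : n ∈ t
  · exact ⟨fun _ => ht, fun _ => hs⟩
  · rw [if_pos hs, if_neg ht] at h1
    exact absurd h1 one_ne_zero
  · rw [if_neg hs, if_pos ht] at h1
    exact absurd h1.symm one_ne_zero
  · exact ⟨fun h => absurd h hs, fun h => absurd h ht⟩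

theorem ps_zero (c w : ℚ) (s : Set ℕ) : PowerSeries.constantCoeff (ps c w s) = c := by
  rw [← PowerSeries.coeff_zero_eq_constantCoeff_apply, ps, PowerSeries.coeff_mk, if_pos rfl]

theorem ps_one (c w : ℚ) (s : Set ℕ) : PowerSeries.coeff 1 (ps c w s) = w := by
  rw [ps, PowerSeries.coeff_mk, if_neg one_ne_zero, if_pos rfl]

theorem exists_transcendental (A : Subalgebra ℚ (PowerSeries ℚ)) [Countable A] (c w : ℚ) :
    ∃ f : PowerSeries ℚ, PowerSeries.constantCoeff f = c ∧ PowerSeries.coeff 1 f = w ∧
      Transcendental A f := by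
  by_contra hcon
  have hall : ∀ s : Set ℕ, IsAlgebraic A (ps c w s) := by
    intro s
    by_contra hs
    exact hcon ⟨ps c w s, ps_zero c w s, ps_one c w s, hs⟩
  have hc : Set.Countable {f : PowerSeries ℚ | IsAlgebraic A f} := Algebraic.countable A _
  have hc' : Set.Countable (Set.range (ps c w)) := hc.mono (by
    rintro _ ⟨s, rfl⟩
    exact hall s)
  have h1 : Countable (Set ℕ) := by
    have := hc'.to_subtype
    exact (Set.rangeFactorization_injective.2 (ps_inj c w)).countable
  obtain ⟨g, hg⟩ := exists_injective_nat (Set ℕ)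
  exact Function.cantor_injective g hg

end SAiAux

theorem pSAi : S_SAi := by
  intro r
  induction r with
  | zero =>
    intro c w
    refine ⟨Fin.elim0, fun i => i.elim0, ?_⟩
    rw [algebraicIndependent_empty_type_iff]
    exact FaithfulSMul.algebraMap_injective ℚ (PowerSeries ℚ)
  | succ r ih =>
    intro c w
    obtain ⟨a, ha, hai⟩ := ih (fun i => c i.succ) (fun i => w i.succ)
    have hcount : Countable (Algebra.adjoin ℚ (Set.range a)) := by
      have h1 : Algebra.adjoin ℚ (Set.range a) = (MvPolynomial.aeval a).range :=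
        Algebra.adjoin_range_eq_range_aeval ℚ a
      have h0 : Countable (MvPolynomial (Fin r) ℚ) := by
        rw [← Cardinal.mk_le_aleph0_iff]
        refine MvPolynomial.cardinalMk_le_max.trans ?_
        rw [max_le_iff, max_le_iff]
        exact ⟨⟨Cardinal.mk_le_aleph0, Cardinal.mk_le_aleph0⟩, le_rfl⟩
      rw [h1]
      exact (MvPolynomial.aeval (R := ℚ) a).rangeRestrict_surjective.countable
    obtain ⟨f, hf0, hf1, hf⟩ :=
      SAiAux.exists_transcendental (Algebra.adjoin ℚ (Set.range a)) (c 0) (w 0)
    refine ⟨Fin.cons f a, ?_, ?_⟩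
    · intro i
      refine Fin.cases ?_ (fun j => ?_) i
      · rw [Fin.cons_zero]
        exact ⟨hf0, hf1⟩
      · rw [Fin.cons_succ]
        exact ha j
    · have h2 := (hai.option_iff_transcendental f).2 hf
      have h3 : (Fin.cons f a : Fin (r + 1) → PowerSeries ℚ) =
          (fun o : Option (Fin r) => o.elim f a) ∘ (finSuccEquiv r) := by
        funext i
        refine Fin.cases ?_ (fun j => ?_) i
        · rw [Fin.cons_zero, Function.comp_apply, finSuccEquiv_zero]
          rfl
        · rw [Fin.cons_succ, Function.comp_apply, finSuccEquiv_succ]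
          rfl
      rw [h3]
      exact h2.comp _ (finSuccEquiv r).injective

end Pool.Agent.SGA
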