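import Pool.Agent.Lib.MP_452a87_nt.SGA.Spec

set_option autoImplicit false

/-!
# Theorem SGA, module SCt: counting integral points outside a hypersurface
-/

namespace Pool.Agent.SGA

open MvPolynomial Pool.Agent.SMQ Pool.Agent.SG

namespace SCtAux

open scoped IntermediateField.algebraAdjoinAdjoin in
/-- A polynomial relation with coefficients in `ℚ[Y]`. -/
theorem exists_poly {Ω : Type} [Field Ω] [CharZero Ω] {r : ℕ} (y : Fin r → Ω)
    (hy : AlgebraicIndependent ℚ y) (z : Ω)
    (hz : IsAlgebraic (IntermediateField.adjoin ℚ (Set.range y)) z) :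
    ∃ p : Polynomial (MvPolynomial (Fin r) ℚ), p ≠ 0 ∧
      Polynomial.eval₂ (aeval y : MvPolynomial (Fin r) ℚ →ₐ[ℚ] Ω).toRingHom z p = 0 := by
  have hz' : IsAlgebraic (Algebra.adjoin ℚ (Set.range y)) z :=
    (IsFractionRing.isAlgebraic_iff (Algebra.adjoin ℚ (Set.range y))
      (IntermediateField.adjoin ℚ (Set.range y)) Ω).2 hz
  obtain ⟨p, hp0, hp⟩ := hz'
  let E := hy.aevalEquiv
  refine ⟨p.map (E.symm : Algebra.adjoin ℚ (Set.range y) →+* MvPolynomial (Fin r) ℚ), ?_, ?_⟩
  · rw [Polynomial.map_ne_zero_iff]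
    · exact hp0
    · exact E.symm.injective
  · rw [Polynomial.eval₂_map]
    have h1 : ((aeval y : MvPolynomial (Fin r) ℚ →ₐ[ℚ] Ω).toRingHom).comp
        (E.symm : Algebra.adjoin ℚ (Set.range y) →+* MvPolynomial (Fin r) ℚ) =
        algebraMap (Algebra.adjoin ℚ (Set.range y)) Ω := by
      ext a
      obtain ⟨q, rfl⟩ := E.surjective a
      change aeval y (E.symm (E q)) = _
      rw [AlgEquiv.symm_apply_apply]
      exact (hy.algebraMap_aevalEquiv q).symm
    rw [h1]
    exact hp

end SCtAux

open SCtAux in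
theorem pSCt : S_SCt := by
  intro m r S Ω _ _ x hG hT
  obtain ⟨b, hb, halg⟩ := hT
  have hex := fun j => exists_poly (x ∘ b) hb (x j) (halg j)
  choose p hp0 hp using hex
  let f : MvPolynomial (Fin m) ℚ := ∏ j, rename b (p j).leadingCoeff
  refine ⟨f, 3 ^ r * ∏ j, (p j).natDegree, ?_, ?_⟩
  · rw [← hG]
    intro h0
    rw [map_prod, Finset.prod_eq_zero_iff] at h0
    obtain ⟨j, -, hj⟩ := h0
    rw [aeval_rename] at hj
    have h1 : (p j).leadingCoeff = 0 := by
      apply hb
      rw [hj, map_zero]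
    exact hp0 j (Polynomial.leadingCoeff_eq_zero.1 h1)
  intro H hH
  -- the relations at the points of `S`
  have hrel : ∀ n ∈ S, ∀ j, ((p j).map (eval (n ∘ b))).eval (n j) = 0 := by
    intro n hn j
    let Q : MvPolynomial (Fin m) ℚ :=
      Polynomial.eval₂ (rename b : MvPolynomial (Fin r) ℚ →ₐ[ℚ] MvPolynomial (Fin m) ℚ).toRingHom
        (X j) (p j)
    have hQ : aeval x Q = 0 := by
      change (aeval x : MvPolynomial (Fin m) ℚ →ₐ[ℚ] Ω).toRingHom (Polynomial.eval₂ _ _ _) = 0
      rw [Polynomial.hom_eval₂]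
      have h2 : ((aeval x : MvPolynomial (Fin m) ℚ →ₐ[ℚ] Ω).toRingHom).comp
          (rename b : MvPolynomial (Fin r) ℚ →ₐ[ℚ] MvPolynomial (Fin m) ℚ).toRingHom =
          (aeval (x ∘ b) : MvPolynomial (Fin r) ℚ →ₐ[ℚ] Ω).toRingHom := by
        ext q
        · simp
        · change aeval x (rename b (X q)) = aeval (x ∘ b) (X q)
          rw [aeval_rename]
      rw [h2]
      have h3 : (aeval x : MvPolynomial (Fin m) ℚ →ₐ[ℚ] Ω).toRingHom (X j) = x j := aeval_X x j
      rw [h3]
      exact hp j
    have hV := (hG Q).1 hQ n hn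
    have h4 : eval n Q = Polynomial.eval₂ (eval (n ∘ b)) (n j) (p j) := by
      change eval n (Polynomial.eval₂ _ _ _) = _
      rw [Polynomial.hom_eval₂]
      have h2 : (eval n).comp
          (rename b : MvPolynomial (Fin r) ℚ →ₐ[ℚ] MvPolynomial (Fin m) ℚ).toRingHom =
          eval (n ∘ b) := by
        ext q
        · simp
        · change eval n (rename b (X q)) = eval (n ∘ b) (X q)
          rw [eval_rename]
      rw [h2, eval_X]
    rw [Polynomial.eval_map, ← h4, hV]
  classical
  -- the finite sets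
  let box : Finset (Fin r → ℤ) := Fintype.piFinset fun _ => Finset.Icc (-(H : ℤ)) H
  let R : (Fin r → ℤ) → Finset (Fin m → ℚ) := fun k =>
    Fintype.piFinset fun j => ((p j).map (eval fun i => (k i : ℚ))).roots.toFinset
  have hR : ∀ k ∈ box, (R k).card ≤ ∏ j, (p j).natDegree := by
    intro k _
    rw [Fintype.card_piFinset]
    apply Finset.prod_le_prod' 
    intro j _
    refine (Multiset.toFinset_card_le _).trans ((Polynomial.card_roots' _).trans ?_)
    exact Polynomial.natDegree_map_le
  have hU : (box.biUnion R).card ≤ (3 ^ r * ∏ j, (p j).natDegree) * H ^ r := by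
    refine (Finset.card_biUnion_le_card_mul _ _ _ hR).trans ?_
    have h5 : box.card = (2 * H + 1) ^ r := by
      rw [Fintype.card_piFinset]
      simp
      congr 1
      omega
    rw [h5]
    calc (2 * H + 1) ^ r * ∏ j, (p j).natDegree
        ≤ (3 * H) ^ r * ∏ j, (p j).natDegree := by
          apply Nat.mul_le_mul_right
          apply Nat.pow_le_pow_left
          omega
      _ = (3 ^ r * ∏ j, (p j).natDegree) * H ^ r := by
          rw [mul_pow]
          ring
  refine le_trans ?_ hU
  rw [← Set.ncard_coe_finset]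
  apply Set.ncard_le_ncard_of_injOn (fun n i => ((n i : ℤ) : ℚ))
  · intro n hn
    obtain ⟨hbox, hS, hf⟩ := hn
    rw [Finset.mem_coe, Finset.mem_biUnion]
    refine ⟨n ∘ b, ?_, ?_⟩
    · rw [Fintype.mem_piFinset]
      intro i
      rw [Finset.mem_Icc]
      exact abs_le.1 (hbox (b i))
    · rw [Fintype.mem_piFinset]
      intro j
      rw [Multiset.mem_toFinset, Polynomial.mem_roots']
      have h6 := hrel _ hS j
      refine ⟨?_, h6⟩
      intro h0
      apply hf
      rw [map_prod]
      apply Finset.prod_eq_zero (Finset.mem_univ j)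
      rw [eval_rename]
      have h7 := congrArg (fun q => Polynomial.coeff q (p j).natDegree) h0
      simp only [Polynomial.coeff_map, Polynomial.coeff_zero] at h7
      exact h7
  · intro n _ n' _ h
    ext i
    have h8 : ((n i : ℤ) : ℚ) = ((n' i : ℤ) : ℚ) := congrFun h i
    exact_mod_cast h8

end Pool.Agent.SGA
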