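import Pool.Agent.Lib.MP_452a87_nt.SGA.Spec

/-! Theorem SGA, task SCu: formal curves through the points of `S`. -/

set_option autoImplicit false

namespace Pool.Agent.SGA

open MvPolynomial Pool.Agent.SMQ Pool.Agent.SG

/-- Substitution of `X_b` and `Θ`. -/
private noncomputable def scuT {m r : ℕ} (b : Fin r → Fin m) (Θ : MvPolynomial (Fin m) ℚ)
    (G : Polynomial (MvPolynomial (Fin r) ℚ)) : MvPolynomial (Fin m) ℚ :=
  Polynomial.eval₂ (rename b : MvPolynomial (Fin r) ℚ →ₐ[ℚ] MvPolynomial (Fin m) ℚ).toRingHom Θ G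

private theorem scuT_aeval {m r : ℕ} (b : Fin r → Fin m) (Θ : MvPolynomial (Fin m) ℚ)
    (G : Polynomial (MvPolynomial (Fin r) ℚ)) (A : Type) [CommRing A] [Algebra ℚ A] (z : Fin m → A) :
    aeval z (scuT b Θ G) = Polynomial.eval₂
      (aeval (z ∘ b) : MvPolynomial (Fin r) ℚ →ₐ[ℚ] A).toRingHom (aeval z Θ) G := by
  have h := Polynomial.hom_eval₂ G
    (rename b : MvPolynomial (Fin r) ℚ →ₐ[ℚ] MvPolynomial (Fin m) ℚ).toRingHom
    (aeval z : MvPolynomial (Fin m) ℚ →ₐ[ℚ] A).toRingHom Θ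
  have h2 : (aeval z : MvPolynomial (Fin m) ℚ →ₐ[ℚ] A).toRingHom.comp
      (rename b : MvPolynomial (Fin r) ℚ →ₐ[ℚ] MvPolynomial (Fin m) ℚ).toRingHom
      = (aeval (z ∘ b) : MvPolynomial (Fin r) ℚ →ₐ[ℚ] A).toRingHom := by
    apply RingHom.ext
    intro p
    exact aeval_rename b z p
  rw [h2] at h
  exact h

/-- Constant coefficients of values. -/
private theorem scu_cc {r : ℕ} (a : Fin r → PowerSeries ℚ) (c : Fin r → ℚ)
    (hc : ∀ i, PowerSeries.constantCoeff (a i) = c i) :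
    (PowerSeries.constantCoeff (R := ℚ)).comp
      (aeval a : MvPolynomial (Fin r) ℚ →ₐ[ℚ] PowerSeries ℚ).toRingHom
      = (aeval c : MvPolynomial (Fin r) ℚ →ₐ[ℚ] ℚ).toRingHom := by
  apply MvPolynomial.ringHom_ext
  · intro q
    change PowerSeries.constantCoeff (aeval a (C q)) = aeval c (C q)
    rw [aeval_C, aeval_C, PowerSeries.algebraMap_apply]
    simp
  · intro i
    change PowerSeries.constantCoeff (aeval a (X i)) = aeval c (X i)
    rw [aeval_X, aeval_X, hc]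

theorem pSCu : S_SPE → S_SHo → S_SHs → S_SAi → S_SCu := by
  intro hPE hHo hHs hAi m r S Ω _ _ x b hx hind halg
  obtain ⟨Θ, g, δ, h, hδ, hg0, hg1, hh, hdich⟩ := hPE Ω m r x b hind halg
  have hinj : ∀ p : MvPolynomial (Fin r) ℚ, p ≠ 0 → aeval (x ∘ b) p ≠ 0 := by
    intro p hp h0
    exact hp (hind.eq_zero_of_aeval_eq_zero p h0)
  refine ⟨rename b δ * scuT b Θ g.derivative, ?_, ?_⟩
  · rw [← hx]
    rw [map_mul, scuT_aeval, aeval_rename]
    exact mul_ne_zero (hinj δ hδ) hg1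
  intro n0 hn0 hf w
  -- the point `n0`
  have hS : ∀ P : MvPolynomial (Fin m) ℚ, aeval x P = 0 → aeval n0 P = 0 := by
    intro P hP
    exact (hx P).1 hP n0 hn0
  have hf' : aeval n0 (rename b δ * scuT b Θ g.derivative) ≠ 0 := hf
  rw [map_mul, scuT_aeval, aeval_rename] at hf'
  have hδ0 : aeval (n0 ∘ b) δ ≠ 0 := left_ne_zero_of_mul hf'
  have hg1' := right_ne_zero_of_mul hf'
  have hg0' : Polynomial.eval₂ (aeval (n0 ∘ b) : MvPolynomial (Fin r) ℚ →ₐ[ℚ] ℚ).toRingHom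
      (aeval n0 Θ) g = 0 := by
    rw [← scuT_aeval]
    apply hS
    rw [scuT_aeval]
    exact hg0
  have hh' : ∀ i, aeval (n0 ∘ b) δ * n0 i = Polynomial.eval₂
      (aeval (n0 ∘ b) : MvPolynomial (Fin r) ℚ →ₐ[ℚ] ℚ).toRingHom (aeval n0 Θ) (h i) := by
    intro i
    have h1 : aeval n0 (rename b δ * X i - scuT b Θ (h i)) = 0 := by
      apply hS
      rw [map_sub, map_mul, aeval_rename, aeval_X, scuT_aeval, hh i, sub_self]
    rw [map_sub, map_mul, aeval_rename, aeval_X, scuT_aeval, sub_eq_zero] at h1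
    exact h1
  obtain ⟨a, ha, hai⟩ := hAi r (n0 ∘ b) w
  have hcc := scu_cc a (n0 ∘ b) (fun i => (ha i).1)
  set φ : MvPolynomial (Fin r) ℚ →+* PowerSeries ℚ :=
    (aeval a : MvPolynomial (Fin r) ℚ →ₐ[ℚ] PowerSeries ℚ).toRingHom with hφ
  have hev : ∀ (ϑ : PowerSeries ℚ) (G : Polynomial (MvPolynomial (Fin r) ℚ)),
      PowerSeries.constantCoeff (Polynomial.eval₂ φ ϑ G) = Polynomial.eval₂
      (aeval (n0 ∘ b) : MvPolynomial (Fin r) ℚ →ₐ[ℚ] ℚ).toRingHom
      (PowerSeries.constantCoeff ϑ) G := by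
    intro ϑ G
    rw [Polynomial.hom_eval₂, hcc]
  obtain ⟨ϑ, hϑ0, hϑ⟩ := hHs (g.map φ) (aeval n0 Θ)
    (by rw [Polynomial.map_map, hcc, Polynomial.eval_map]; exact hg0')
    (by rw [Polynomial.map_map, hcc, Polynomial.derivative_map, Polynomial.eval_map]; exact hg1')
  rw [Polynomial.eval_map] at hϑ
  have hδa : PowerSeries.constantCoeff (aeval a δ) = aeval (n0 ∘ b) δ :=
    RingHom.congr_fun hcc δ
  have hδa0 : PowerSeries.constantCoeff (aeval a δ) ≠ 0 := by rw [hδa]; exact hδ0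
  have hδne : aeval a δ ≠ (0 : PowerSeries ℚ) := by
    intro h0
    rw [h0, map_zero] at hδa0
    exact hδa0 rfl
  set γ : Fin m → PowerSeries ℚ := fun i => Polynomial.eval₂ φ ϑ (h i) * (aeval a δ)⁻¹ with hγdef
  have hγ : ∀ i, aeval a δ * γ i = Polynomial.eval₂ φ ϑ (h i) := by
    intro i
    rw [hγdef]
    calc aeval a δ * (Polynomial.eval₂ φ ϑ (h i) * (aeval a δ)⁻¹)
        = Polynomial.eval₂ φ ϑ (h i) * (aeval a δ * (aeval a δ)⁻¹) := by ring
      _ = _ := by rw [PowerSeries.mul_inv_cancel _ hδa0, mul_one]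
  -- transfer
  have hainj : ∀ p : MvPolynomial (Fin r) ℚ, p ≠ 0 → φ p ≠ 0 := by
    intro p hp h0
    exact hp (hai.eq_zero_of_aeval_eq_zero p h0)
  have htr : ∀ G : Polynomial (MvPolynomial (Fin r) ℚ),
      Polynomial.eval₂ (aeval (x ∘ b) : MvPolynomial (Fin r) ℚ →ₐ[ℚ] Ω).toRingHom (aeval x Θ) G = 0 ↔
      Polynomial.eval₂ φ ϑ G = 0 := by
    intro G
    rcases hdich G with ⟨hG, c, K, hc, hK⟩ | ⟨hG, c, u, v, hc, huv⟩
    · refine ⟨fun _ => ?_, fun _ => hG⟩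
      have h1 := congrArg (Polynomial.eval₂ φ ϑ) hK
      rw [Polynomial.eval₂_mul, Polynomial.eval₂_mul, hϑ, zero_mul, Polynomial.eval₂_C] at h1
      exact (mul_eq_zero.1 h1).resolve_left (hainj c hc)
    · refine ⟨fun h0 => absurd h0 hG, fun h0 => ?_⟩
      have h1 := congrArg (Polynomial.eval₂ φ ϑ) huv
      rw [Polynomial.eval₂_add, Polynomial.eval₂_mul, Polynomial.eval₂_mul, hϑ, h0, mul_zero,
        mul_zero, add_zero, Polynomial.eval₂_C] at h1
      exact absurd h1.symm (hainj c hc)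
  refine ⟨γ, ⟨?_, ?_⟩, ?_⟩
  · intro i
    have h1 := congrArg (PowerSeries.constantCoeff (R := ℚ)) (hγ i)
    rw [map_mul, hδa, hev, hϑ0, ← hh' i] at h1
    exact mul_left_cancel₀ hδ0 h1
  · intro P
    rw [← hx P]
    obtain ⟨N, G, hN⟩ := hHo m r δ h P
    have e1 := hN Ω (x ∘ b) (aeval x Θ) x hh
    have e2 := hN (PowerSeries ℚ) a ϑ γ hγ
    have e3 := htr G
    rw [← hφ] at e2
    rw [← e1, ← e2, mul_eq_zero, mul_eq_zero] at e3
    have h4 : ¬ (aeval (x ∘ b) δ) ^ N = 0 := pow_ne_zero _ (hinj δ hδ)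
    have h5 : ¬ (aeval a δ : PowerSeries ℚ) ^ N = 0 := pow_ne_zero _ hδne
    constructor
    · intro h0
      exact (e3.2 (Or.inr h0)).resolve_left h4
    · intro h0
      exact (e3.1 (Or.inr h0)).resolve_left h5
  · intro j
    have h1 : Polynomial.eval₂ φ ϑ (Polynomial.C (δ * X j) - h (b j)) = 0 := by
      rw [← htr, Polynomial.eval₂_sub, Polynomial.eval₂_C, ← hh (b j), sub_eq_zero]
      change aeval (x ∘ b) (δ * X j) = _
      rw [map_mul, aeval_X]
      rfl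
    rw [Polynomial.eval₂_sub, Polynomial.eval₂_C, ← hγ (b j), sub_eq_zero] at h1
    have h2 : aeval a δ * a j = aeval a δ * γ (b j) := by
      rw [← h1]
      change _ = aeval a (δ * X j)
      rw [map_mul, aeval_X]
    rw [← mul_left_cancel₀ hδne h2]
    exact (ha j).2

end Pool.Agent.SGA
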