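import Pool.Agent.Lib.MP_452a87_nt.SGA.Spec

/-!
# Theorem SGA: the final theorem (task SFn)
-/

set_option autoImplicit false

namespace Pool.Agent.SGA

open MvPolynomial Pool.Agent.SMQ Pool.Agent.SG

namespace SFnAux

/-- The exponential of an integral combination of logarithms of algebraic numbers. -/
private lemma alg_exp {m : ℕ} (L : Fin m → ℂ) (hL : ∀ i, IsAlgebraic ℚ (Complex.exp (L i)))
    (n : Fin m → ℤ) : IsAlgebraic ℚ (Complex.exp (∑ i, (n i : ℂ) * L i)) := by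
  rw [Complex.exp_sum, isAlgebraic_iff_isIntegral]
  refine IsIntegral.prod _ fun i _ => ?_
  rw [Complex.exp_int_mul, ← isAlgebraic_iff_isIntegral]
  have h1 := isAlgebraic_iff_isIntegral.1 (hL i)
  rcases Int.eq_nat_or_neg (n i) with ⟨k, hk | hk⟩
  · rw [hk, zpow_natCast]
    exact isAlgebraic_iff_isIntegral.2 (h1.pow k)
  · rw [hk, zpow_neg, zpow_natCast]
    exact (isAlgebraic_iff_isIntegral.2 (h1.pow k)).inv

/-- The integral points of the box form a finite set. -/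
private lemma box_finite (m H : ℕ) (Q : (Fin m → ℤ) → Prop) :
    {n : Fin m → ℤ | (∀ i, |n i| ≤ (H : ℤ)) ∧ Q n}.Finite := by
  refine Set.Finite.subset (Set.finite_Icc (fun _ : Fin m => -(H : ℤ)) (fun _ => (H : ℤ))) ?_
  intro n hn
  exact ⟨fun i => (abs_le.1 (hn.1 i)).1, fun i => (abs_le.1 (hn.1 i)).2⟩

end SFnAux

open SFnAux in
theorem pSFn : S_BBa → S_BVf → S_SMn → S_SNo → S_AEx → S_Acl → S_SFn := by
  intro hBa hVf hMn hNo _ _ e m F hF hrk L hL hexp
  obtain ⟨v, hv, hvF, hrep⟩ := hBa e F hF hrk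
  obtain ⟨C, hC⟩ := hNo m (6 * (e + 1) ^ 2 - 1)
    {n : Fin m → ℚ | ¬ AlgebraicIndependent ℚ (fun k => Complex.exp (v k * lq L n))} (by
      intro S Ω _ _ x r hS hI hG hT
      have h := hMn e m r v L S Ω x hv (fun k => (hvF k).2) hL hexp hI (fun n hn => hS hn) hG hT
      omega)
  refine ⟨C, fun H hH => le_trans (Set.ncard_le_ncard ?_ ?_) (hC H hH)⟩
  · rintro n ⟨hn1, hn2⟩
    refine ⟨hn1, fun hind => hn2 ?_⟩
    have hl : lq L (fun i => (n i : ℚ)) = ∑ i, (n i : ℂ) * L i := by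
      simp [lq]
    rw [hl] at hind
    exact hVf e F v _ hv hvF hrep (alg_exp L hexp n) hind
  · exact box_finite m H _

end Pool.Agent.SGA
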