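import Pool.Agent.Lib.MP_452a87_nt.SGA.Spec

/-!
# Theorem SGA: existence of a generic point
-/

set_option autoImplicit false

namespace Pool.Agent.SGA

open MvPolynomial Pool.Agent.SMQ Pool.Agent.SG

namespace SGpAux

/-- The ideal of the polynomials vanishing on `S`. -/
def idl {m : ℕ} (S : Set (Fin m → ℚ)) : Ideal (MvPolynomial (Fin m) ℚ) where
  carrier := {P | Van S P}
  add_mem' := by
    intro P Q hP hQ n hn
    rw [map_add, hP n hn, hQ n hn, add_zero]
  zero_mem' := by
    intro n _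
    exact map_zero _
  smul_mem' := by
    intro c P hP n hn
    rw [smul_eq_mul, map_mul, hP n hn, mul_zero]

lemma mem_idl {m : ℕ} (S : Set (Fin m → ℚ)) (P : MvPolynomial (Fin m) ℚ) : P ∈ idl S ↔ Van S P := Iff.rfl

lemma idl_prime {m : ℕ} {S : Set (Fin m → ℚ)} (hS : Ird S) : (idl S).IsPrime := by
  refine Ideal.isPrime_iff.mpr ⟨?_, fun {P Q} h => hS.2 P Q h⟩
  intro h
  obtain ⟨n, hn⟩ := hS.1
  have h1 : (1 : MvPolynomial (Fin m) ℚ) ∈ idl S := by
    rw [h]
    exact Submodule.mem_top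
  have h2 := h1 n hn
  rw [map_one] at h2
  exact one_ne_zero h2

end SGpAux

open SGpAux

/-- Evaluation in a field of characteristic zero and a ring homomorphism. -/
lemma aeval_eq {m : ℕ} {A Ω : Type} [CommRing A] [Field Ω] [CharZero Ω] (q : MvPolynomial (Fin m) ℚ →+* A) (j : A →+* Ω)
    (P : MvPolynomial (Fin m) ℚ) : aeval (fun i => j (q (X i))) P = j (q P) := by
  induction P using MvPolynomial.induction_on with
  | C a =>
    rw [aeval_C]
    exact congrArg (fun φ : ℚ →+* Ω => φ a) (Subsingleton.elim (algebraMap ℚ Ω) ((j.comp q).comp C))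
  | add p q hp hq => rw [map_add, hp, hq, map_add, map_add]
  | mul_X p i hp => rw [map_mul, hp, aeval_X, map_mul, map_mul]

theorem pSGp : S_SGp := by
  intro m S hS
  have := idl_prime hS
  refine ⟨FractionRing (MvPolynomial (Fin m) ℚ ⧸ idl S), inferInstance, algebraRat.charZero _,
    fun i => algebraMap (MvPolynomial (Fin m) ℚ ⧸ idl S) _ (Ideal.Quotient.mk (idl S) (X i)), ?_⟩
  intro P
  have h1 := @aeval_eq m (MvPolynomial (Fin m) ℚ ⧸ idl S) (FractionRing (MvPolynomial (Fin m) ℚ ⧸ idl S)) _ _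
    (algebraRat.charZero _) (Ideal.Quotient.mk (idl S)) (algebraMap _ _) P
  rw [h1, FaithfulSMul.algebraMap_eq_zero_iff, Ideal.Quotient.eq_zero_iff_mem, mem_idl]

end Pool.Agent.SGA
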