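import Pool.Agent.Lib.MP_452a87_nt.SGA.Spec

/-! Theorem SGA, task SHo: clearing the denominator. -/

set_option autoImplicit false

namespace Pool.Agent.SGA

open MvPolynomial Pool.Agent.SMQ Pool.Agent.SG

theorem pSHo : S_SHo := by
  intro m r δ h P
  induction P using MvPolynomial.induction_on with
  | C c =>
    refine ⟨0, Polynomial.C (C c), ?_⟩
    intro A _ _ a θ ξ hh
    simp
  | add p q hp hq =>
    obtain ⟨N1, G1, h1⟩ := hp
    obtain ⟨N2, G2, h2⟩ := hq
    refine ⟨N1 + N2, Polynomial.C (δ ^ N2) * G1 + Polynomial.C (δ ^ N1) * G2, ?_⟩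
    intro A _ _ a θ ξ hh
    have e1 := h1 A a θ ξ hh
    have e2 := h2 A a θ ξ hh
    rw [Polynomial.eval₂_add, Polynomial.eval₂_mul, Polynomial.eval₂_mul, ← e1, ← e2,
      Polynomial.eval₂_C, Polynomial.eval₂_C, map_add]
    have e3 : ∀ k : ℕ, (aeval a : MvPolynomial (Fin r) ℚ →ₐ[ℚ] A).toRingHom (δ ^ k)
        = (aeval a δ) ^ k := fun k => by
      rw [map_pow]; rfl
    rw [e3, e3]
    ring
  | mul_X p i hp =>
    obtain ⟨N, G, h1⟩ := hp
    refine ⟨N + 1, G * h i, ?_⟩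
    intro A _ _ a θ ξ hh
    have e1 := h1 A a θ ξ hh
    rw [Polynomial.eval₂_mul, ← e1, ← hh i, map_mul, aeval_X]
    ring

end Pool.Agent.SGA
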