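import Pool.Agent.Lib.MP_452a87_nt.SGA.Spec

/-! Theorem SGA, task SHs: the lemma of Hensel for power series over the rationals. -/

set_option autoImplicit false

namespace Pool.Agent.SGA

open MvPolynomial Pool.Agent.SMQ Pool.Agent.SG

/-- One step of the approximation. -/
private theorem shs_step (g : Polynomial (PowerSeries ℚ)) (θ0 : ℚ)
    (h1 : (g.map PowerSeries.constantCoeff).derivative.eval θ0 ≠ 0) (N : ℕ) (ϑ : PowerSeries ℚ)
    (hc : PowerSeries.constantCoeff ϑ = θ0) (hd : (PowerSeries.X : PowerSeries ℚ) ^ (N + 1) ∣ g.eval ϑ) :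
    ∃ ϑ' : PowerSeries ℚ, PowerSeries.constantCoeff ϑ' = θ0 ∧
      (PowerSeries.X : PowerSeries ℚ) ^ (N + 2) ∣ g.eval ϑ' ∧
      (PowerSeries.X : PowerSeries ℚ) ^ (N + 1) ∣ ϑ' - ϑ := by
  obtain ⟨q, hq⟩ := hd
  have hder : PowerSeries.constantCoeff (g.derivative.eval ϑ) =
      (g.map PowerSeries.constantCoeff).derivative.eval θ0 := by
    have h2 := Polynomial.hom_eval₂ g.derivative (RingHom.id _) (PowerSeries.constantCoeff (R := ℚ)) ϑ
    rw [Polynomial.eval₂_id] at h2
    rw [Polynomial.derivative_map, Polynomial.eval_map, ← hc, h2]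
    rfl
  set d := (g.map PowerSeries.constantCoeff).derivative.eval θ0 with hd0
  set c : ℚ := - PowerSeries.constantCoeff q / d with hcdef
  refine ⟨ϑ + PowerSeries.C c * PowerSeries.X ^ (N + 1), ?_, ?_, ?_⟩
  · rw [map_add, hc, map_mul, map_pow, PowerSeries.constantCoeff_X, zero_pow (by omega), mul_zero,
      add_zero]
  · obtain ⟨k, hk⟩ := g.binomExpansion ϑ (PowerSeries.C c * PowerSeries.X ^ (N + 1))
    rw [hk, hq]
    have hx : (PowerSeries.X : PowerSeries ℚ) ∣ q + g.derivative.eval ϑ * PowerSeries.C c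
        + k * PowerSeries.C c ^ 2 * PowerSeries.X ^ (N + 1) := by
      rw [PowerSeries.X_dvd_iff, map_add, map_add, map_mul, map_mul, hder, map_pow (PowerSeries.constantCoeff),
        PowerSeries.constantCoeff_X, zero_pow (by omega), mul_zero, add_zero,
        PowerSeries.constantCoeff_C, hcdef]
      field_simp
      ring
    obtain ⟨z, hz⟩ := hx
    refine ⟨z, ?_⟩
    calc _ = PowerSeries.X ^ (N + 1) * (q + g.derivative.eval ϑ * PowerSeries.C c
        + k * PowerSeries.C c ^ 2 * PowerSeries.X ^ (N + 1)) := by ring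
      _ = _ := by rw [hz]; ring
  · refine ⟨PowerSeries.C c, ?_⟩
    ring

theorem pSHs : S_SHs := by
  intro g θ0 h0 h1
  have hstart : PowerSeries.constantCoeff (PowerSeries.C θ0 : PowerSeries ℚ) = θ0 ∧
      (PowerSeries.X : PowerSeries ℚ) ^ (0 + 1) ∣ g.eval (PowerSeries.C θ0) := by
    refine ⟨PowerSeries.constantCoeff_C _, ?_⟩
    rw [zero_add, pow_one, PowerSeries.X_dvd_iff, ← h0, Polynomial.eval_map]
    have := Polynomial.hom_eval₂ g (RingHom.id _) (PowerSeries.constantCoeff (R := ℚ))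
      (PowerSeries.C θ0)
    rw [Polynomial.eval₂_id, PowerSeries.constantCoeff_C] at this
    rw [this]
    rfl
  choose! nx hnx using fun (N : ℕ) (ϑ : PowerSeries ℚ)
    (hh : PowerSeries.constantCoeff ϑ = θ0 ∧ (PowerSeries.X : PowerSeries ℚ) ^ (N + 1) ∣ g.eval ϑ) =>
      shs_step g θ0 h1 N ϑ hh.1 hh.2
  let s : ℕ → PowerSeries ℚ := fun N => Nat.rec (PowerSeries.C θ0) (fun n y => nx n y) N
  have s0 : s 0 = PowerSeries.C θ0 := rfl
  have s1 : ∀ N, s (N + 1) = nx N (s N) := fun N => rfl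
  have hs : ∀ N, PowerSeries.constantCoeff (s N) = θ0 ∧
      (PowerSeries.X : PowerSeries ℚ) ^ (N + 1) ∣ g.eval (s N) := by
    intro N
    induction N with
    | zero => rw [s0]; exact hstart
    | succ n ih => rw [s1]; exact ⟨(hnx n (s n) ih).1, (hnx n (s n) ih).2.1⟩
  have hdf : ∀ N, (PowerSeries.X : PowerSeries ℚ) ^ (N + 1) ∣ s (N + 1) - s N := by
    intro N
    rw [s1]
    exact (hnx N (s N) (hs N)).2.2
  have hst : ∀ k N : ℕ, PowerSeries.coeff N (s (N + k)) = PowerSeries.coeff N (s N) := by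
    intro k
    induction k with
    | zero => intro N; rfl
    | succ k ih =>
      intro N
      rw [← ih N]
      have := (PowerSeries.X_pow_dvd_iff.1 (hdf (N + k))) N (by omega)
      rw [map_sub, sub_eq_zero] at this
      exact this
  let ϑ : PowerSeries ℚ := PowerSeries.mk fun N => PowerSeries.coeff N (s N)
  have hϑ : ∀ N, (PowerSeries.X : PowerSeries ℚ) ^ (N + 1) ∣ ϑ - s N := by
    intro N
    rw [PowerSeries.X_pow_dvd_iff]
    intro j hj
    rw [map_sub, PowerSeries.coeff_mk, sub_eq_zero]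
    have := hst (N - j) j
    rw [show j + (N - j) = N by omega] at this
    exact this.symm
  refine ⟨ϑ, ?_, ?_⟩
  · have := (PowerSeries.X_pow_dvd_iff.1 (hϑ 0)) 0 (by omega)
    rw [map_sub, sub_eq_zero, PowerSeries.coeff_zero_eq_constantCoeff_apply,
      PowerSeries.coeff_zero_eq_constantCoeff_apply, (hs 0).1] at this
    exact this
  · ext N
    have h2 : (PowerSeries.X : PowerSeries ℚ) ^ (N + 1) ∣ g.eval ϑ := by
      have h3 : ϑ - s N ∣ g.eval ϑ - g.eval (s N) := Polynomial.sub_dvd_eval_sub _ _ _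
      have h4 := dvd_add (dvd_trans (hϑ N) h3) (hs N).2
      rwa [sub_add_cancel] at h4
    rw [map_zero]
    exact (PowerSeries.X_pow_dvd_iff.1 h2) N (by omega)

end Pool.Agent.SGA
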