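import Pool.Agent.Lib.MP_452a87_nt.SGA.Spec

/-!
# Theorem SGA, module SKD: the kernel at `n'` is defined over the field `E` belonging to `n0`
-/

set_option autoImplicit false

namespace Pool.Agent.SGA

open MvPolynomial Pool.Agent.SMQ Pool.Agent.SG

namespace SKDAux

variable {m : ℕ}

/-- The value at a rational point. -/
noncomputable def evq (n : Fin m → ℚ) : MvPolynomial (Fin m) ℂ →+* ℂ := eval (fun i => ((n i : ℚ) : ℂ))

/-- A derivation applied to the coefficients. -/
noncomputable def dp (D : Derivation ℚ ℂ ℂ) (G : MvPolynomial (Fin m) ℂ) : MvPolynomial (Fin m) ℂ :=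
  ∑ μ ∈ G.support, monomial μ (D (coeff μ G))

theorem D_mul_rat (D : Derivation ℚ ℂ ℂ) (c : ℂ) (q : ℚ) : D (c * (q : ℂ)) = D c * (q : ℂ) := by
  have h : D (q : ℂ) = 0 := by
    have := D.map_algebraMap q
    simpa using this
  rw [Derivation.leibniz, h, smul_zero, zero_add, smul_eq_mul, mul_comm]

/-- The monomial as a rational number. -/
theorem ev_monomial (n : Fin m → ℚ) (μ : Fin m →₀ ℕ) (c : ℂ) :
    evq n (monomial μ c) = c * (((∏ i, n i ^ μ i : ℚ)) : ℂ) := by
  unfold evq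
  rw [eval_monomial]
  congr 1
  rw [Finsupp.prod_fintype _ _ (fun i => pow_zero _)]
  push_cast
  rfl

theorem ev_eq_sum (n : Fin m → ℚ) (G : MvPolynomial (Fin m) ℂ) :
    evq n G = ∑ μ ∈ G.support, coeff μ G * (((∏ i, n i ^ μ i : ℚ)) : ℂ) := by
  conv_lhs => rw [G.as_sum]
  rw [map_sum]
  exact Finset.sum_congr rfl fun μ _ => ev_monomial n μ _

theorem ev_dp (D : Derivation ℚ ℂ ℂ) (n : Fin m → ℚ) (G : MvPolynomial (Fin m) ℂ) :
    evq n (dp D G) = D (evq n G) := by
  rw [ev_eq_sum n G, map_sum]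
  unfold dp
  rw [map_sum]
  refine Finset.sum_congr rfl fun μ _ => ?_
  rw [ev_monomial, D_mul_rat]

/-- The coefficient of the value of a monomial on the curve. -/
theorem coeff_monomial (γ : Fin m → PowerSeries ℚ) (μ : Fin m →₀ ℕ) (c : ℂ) (ν : ℕ) :
    PowerSeries.coeff ν (aeval (gC γ) (monomial μ c)) = c * ((PowerSeries.coeff ν (∏ i, γ i ^ μ i) : ℚ) : ℂ) := by
  rw [aeval_monomial, Finsupp.prod_fintype _ _ (fun i => pow_zero _)]
  have h : ∏ i, gC γ i ^ μ i = PowerSeries.map (algebraMap ℚ ℂ) (∏ i, γ i ^ μ i) := by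
    rw [map_prod]
    refine Finset.prod_congr rfl fun i _ => ?_
    rw [map_pow]
    rfl
  rw [h, ← Algebra.smul_def, PowerSeries.coeff_smul, PowerSeries.coeff_map, smul_eq_mul]
  rfl

theorem coeff_eq_sum (γ : Fin m → PowerSeries ℚ) (G : MvPolynomial (Fin m) ℂ) (ν : ℕ) :
    PowerSeries.coeff ν (aeval (gC γ) G) =
      ∑ μ ∈ G.support, coeff μ G * ((PowerSeries.coeff ν (∏ i, γ i ^ μ i) : ℚ) : ℂ) := by
  conv_lhs => rw [G.as_sum]
  rw [map_sum, map_sum]
  exact Finset.sum_congr rfl fun μ _ => coeff_monomial γ μ _ ν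

theorem coeff_dp (D : Derivation ℚ ℂ ℂ) (γ : Fin m → PowerSeries ℚ) (G : MvPolynomial (Fin m) ℂ) (ν : ℕ) :
    PowerSeries.coeff ν (aeval (gC γ) (dp D G)) = D (PowerSeries.coeff ν (aeval (gC γ) G)) := by
  rw [coeff_eq_sum γ G, map_sum]
  unfold dp
  rw [map_sum, map_sum]
  refine Finset.sum_congr rfl fun μ _ => ?_
  rw [coeff_monomial, D_mul_rat]

/-- The linear form with coefficients `dl D (z * L i)`. -/
noncomputable def lf (L : Fin m → ℂ) (D : Derivation ℚ ℂ ℂ) (z : ℂ) : MvPolynomial (Fin m) ℂ :=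
  ∑ i, C (dl D (z * L i)) * X i

theorem lq_mul (L : Fin m → ℂ) (z : ℂ) (n : Fin m → ℚ) : z * lq L n = ∑ i, ((n i : ℚ) : ℂ) * (z * L i) := by
  unfold lq
  rw [Finset.mul_sum]
  exact Finset.sum_congr rfl fun i _ => by ring

theorem ev_lf (hdl : S_Adl) (L : Fin m → ℂ) (D : Derivation ℚ ℂ ℂ) (z : ℂ) (n : Fin m → ℚ) :
    evq n (lf L D z) = dl D (z * lq L n) := by
  rw [lq_mul, hdl.2.2.2.2.2.1 (Fin m) D n fun i => z * L i]
  unfold lf
  rw [map_sum]
  refine Finset.sum_congr rfl fun i _ => ?_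
  rw [map_mul]
  unfold evq
  rw [eval_C, eval_X, mul_comm]

/-- The coefficient vectors of the curve. -/
noncomputable def gv (γ : Fin m → PowerSeries ℚ) (ν : ℕ) (i : Fin m) : ℚ := PowerSeries.coeff ν (γ i)

theorem coeff_lf (hdl : S_Adl) (L : Fin m → ℂ) (D : Derivation ℚ ℂ ℂ) (z : ℂ) (γ : Fin m → PowerSeries ℚ) (ν : ℕ) :
    PowerSeries.coeff ν (aeval (gC γ) (lf L D z)) = dl D (z * lq L (gv γ ν)) := by
  rw [lq_mul, hdl.2.2.2.2.2.1 (Fin m) D (gv γ ν) fun i => z * L i]
  unfold lf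
  rw [map_sum, map_sum]
  refine Finset.sum_congr rfl fun i _ => ?_
  rw [map_mul, aeval_X, ← algebraMap_eq, AlgHom.commutes, ← Algebra.smul_def, PowerSeries.coeff_smul, smul_eq_mul, mul_comm]
  rfl

/-- Cramer: if `M r = b` then `adj(M) b = det M • r`. -/
theorem cramer {s : ℕ} (M : Matrix (Fin s) (Fin s) ℂ) (r b : Fin s → ℂ)
    (h : ∀ a, b a = ∑ j, r j * M a j) (j : Fin s) :
    ∑ k, M.adjugate j k * b k = M.det * r j := by
  have h1 : b = M.mulVec r := by
    funext a
    rw [h a]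
    unfold Matrix.mulVec dotProduct
    exact Finset.sum_congr rfl fun i _ => mul_comm _ _
  have h2 : ∑ k, M.adjugate j k * b k = (M.adjugate.mulVec b) j := rfl
  rw [h2, h1, Matrix.mulVec_mulVec, Matrix.adjugate_mul, Matrix.smul_mulVec, Matrix.one_mulVec]
  rfl

section main

variable {s : ℕ} (L : Fin m → ℂ) (Dl : Fin s → Derivation ℚ ℂ ℂ) (w : Fin s → ℂ) (w0 : ℂ)

/-- The matrix of linear forms. -/
noncomputable def Am : Matrix (Fin s) (Fin s) (MvPolynomial (Fin m) ℂ) :=
  Matrix.of fun a j => lf L (Dl a) (w j)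

/-- The determinant. -/
noncomputable def Qp : MvPolynomial (Fin m) ℂ := (Am L Dl w).det

/-- The numerators. -/
noncomputable def Pp (j : Fin s) : MvPolynomial (Fin m) ℂ :=
  ∑ k, (Am L Dl w).adjugate j k * lf L (Dl k) w0

theorem evq_Am (hdl : S_Adl) (n : Fin m → ℚ) :
    (evq n).mapMatrix (Am L Dl w) = dm Dl (fun j => w j * lq L n) := by
  ext a j
  simp only [RingHom.mapMatrix_apply, Matrix.map_apply, Am, Matrix.of_apply, dm]
  exact ev_lf hdl L (Dl a) (w j) n

theorem ev_Q (hdl : S_Adl) (n : Fin m → ℚ) : evq n (Qp L Dl w) = (dm Dl (fun j => w j * lq L n)).det := by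
  rw [← evq_Am L Dl w hdl, ← RingHom.map_det]
  rfl

theorem ev_P (hdl : S_Adl) (n : Fin m → ℚ) (r : Fin s → ℂ)
    (h : ∀ a, dl (Dl a) (w0 * lq L n) = ∑ j, r j * dl (Dl a) (w j * lq L n)) (j : Fin s) :
    evq n (Pp L Dl w w0 j) = evq n (Qp L Dl w) * r j := by
  rw [ev_Q L Dl w hdl, ← cramer (dm Dl (fun j => w j * lq L n)) r
    (fun a => dl (Dl a) (w0 * lq L n)) h j]
  unfold Pp
  rw [map_sum]
  refine Finset.sum_congr rfl fun k _ => ?_
  rw [map_mul, ev_lf hdl, ← evq_Am L Dl w hdl, ← RingHom.map_adjugate]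
  rfl

end main

end SKDAux

open SKDAux in
theorem pSKD : S_STy → S_STr → S_AD1 → S_Adl → S_SKD := by
  intro hTy hTr hD1 hdl B E hE hBE m s S L w w0 Dl n0 γ hDl hn0 hγ hu hu0 hdet0 hker n' hn' hdet1 r hr j
  set Q := Qp L Dl w with hQ
  set P := Pp L Dl w w0 with hP
  have htr : ∀ G : MvPolynomial (Fin m) ℂ, (∀ n ∈ S, evq n G = 0) ↔ aeval (gC γ) G = 0 := hTr m S n0 γ hγ
  -- values of `Q`
  have hQ1 : evq n' Q ≠ 0 := by
    rw [hQ, ev_Q L Dl w hdl]
    exact hdet1
  have hgv0 : gv γ 0 = n0 := by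
    funext i
    unfold gv
    rw [PowerSeries.coeff_zero_eq_constantCoeff_apply]
    exact hγ.1 i
  -- constant coefficients are values at `n0`
  have hconst : ∀ G : MvPolynomial (Fin m) ℂ, PowerSeries.constantCoeff (aeval (gC γ) G) = evq n0 G := by
    intro G
    have h1 : PowerSeries.constantCoeff (aeval (gC γ) G) =
        eval₂Hom (RingHom.id ℂ) (fun i => PowerSeries.constantCoeff (gC γ i)) G := by
      induction G using MvPolynomial.induction_on with
      | C a =>
        rw [← algebraMap_eq, AlgHom.commutes]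
        rw [algebraMap_eq, coe_eval₂Hom, eval₂_C]
        simp
      | add p q hp hq => rw [map_add, map_add, map_add, hp, hq]
      | mul_X p i hp => rw [map_mul, map_mul, map_mul, hp, aeval_X, coe_eval₂Hom, eval₂_X]
    rw [h1]
    unfold evq
    have h2 : (fun i => PowerSeries.constantCoeff (gC γ i)) = fun i => ((n0 i : ℚ) : ℂ) := by
      funext i
      unfold gC
      rw [← PowerSeries.coeff_zero_eq_constantCoeff_apply, PowerSeries.coeff_map,
        PowerSeries.coeff_zero_eq_constantCoeff_apply, hγ.1 i]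
      rfl
    rw [h2]
    rfl
  set Qs : PowerSeries ℂ := aeval (gC γ) Q with hQs
  have hcc : PowerSeries.constantCoeff Qs ≠ 0 := by
    rw [hQs, hconst, hQ, ev_Q L Dl w hdl]
    exact hdet0
  have hQsne : Qs ≠ 0 := by
    intro h
    rw [h, map_zero] at hcc
    exact hcc rfl
  -- the claim
  have claim : ∀ D ∈ DB B, Qs * aeval (gC γ) (lf L D w0) = ∑ j, aeval (gC γ) (lf L D (w j)) * aeval (gC γ) (P j) := by
    intro D hD
    have h1 : ∀ n ∈ S, evq n (Q * (Q * lf L D w0 - ∑ j, lf L D (w j) * P j)) = 0 := by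
      intro n hn
      rw [map_mul]
      by_cases hc : evq n Q = 0
      · rw [hc, zero_mul]
      · obtain ⟨r', hr'⟩ := hker n hn (by rw [← ev_Q L Dl w hdl]; exact hc)
        have h4 : ∀ i, evq n (P i) = evq n Q * r' i := fun i =>
          ev_P L Dl w w0 hdl n r' (fun a => hr' (Dl a) (hDl a)) i
        have h5 : evq n (Q * lf L D w0 - ∑ j, lf L D (w j) * P j) = 0 := by
          rw [map_sub, map_mul, ev_lf hdl, map_sum, hr' D hD, Finset.mul_sum, sub_eq_zero]
          refine Finset.sum_congr rfl fun i _ => ?_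
          rw [map_mul, ev_lf hdl, h4]
          ring
        rw [h5, mul_zero]
    have h2 := (htr _).1 h1
    rw [map_mul] at h2
    have h3 := (mul_eq_zero.1 h2).resolve_left hQsne
    rw [map_sub, map_mul, map_sum, sub_eq_zero] at h3
    rw [h3]
    exact Finset.sum_congr rfl fun i _ => by rw [map_mul]
  -- power series
  set ρ : Fin s → PowerSeries ℂ := fun i => aeval (gC γ) (P i) * Qs⁻¹ with hρ
  have hQρ : ∀ i, Qs * ρ i = aeval (gC γ) (P i) := by
    intro i
    change Qs * (aeval (gC γ) (P i) * Qs⁻¹) = _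
    rw [mul_left_comm, PowerSeries.mul_inv_cancel _ hcc, mul_one]
  have hser : ∀ D ∈ DB B, aeval (gC γ) (lf L D w0) = ∑ i, ρ i * aeval (gC γ) (lf L D (w i)) := by
    intro D hD
    have h2 : Qs⁻¹ * (Qs * aeval (gC γ) (lf L D w0)) = aeval (gC γ) (lf L D w0) := by
      rw [← mul_assoc, PowerSeries.inv_mul_cancel _ hcc, one_mul]
    rw [← h2, claim D hD, Finset.mul_sum]
    refine Finset.sum_congr rfl fun i _ => ?_
    rw [hρ]
    ring
  -- the Taylor coefficients are in `E`
  have hT : ∀ ν i, PowerSeries.coeff ν (ρ i) ∈ E := by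
    refine hTy B E hE hBE s Dl (fun ν j => w j * lq L (gv γ ν)) (fun ν => w0 * lq L (gv γ ν))
      (fun ν i => PowerSeries.coeff ν (ρ i)) hDl ?_ ?_ ?_ ?_
    · intro j
      simp only [hgv0]
      exact hu j
    · simp only [hgv0]
      exact hu0
    · simp only [hgv0]
      exact hdet0
    · intro ν D hD
      have h1 := congrArg (PowerSeries.coeff ν) (hser D hD)
      rw [coeff_lf hdl, map_sum] at h1
      rw [h1, Finset.sum_comm]
      refine Finset.sum_congr rfl fun i _ => ?_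
      rw [PowerSeries.coeff_mul]
      refine Finset.sum_congr rfl fun p _ => ?_
      rw [coeff_lf hdl]
  -- the quotient is in `E`
  have hq : evq n' (P j) / evq n' Q ∈ E := by
    apply hD1 E hE
    intro D hD
    have h1 : aeval (gC γ) (dp D (P j)) = aeval (gC γ) (dp D Q) * ρ j := by
      ext ν
      rw [coeff_dp, ← hQρ j, PowerSeries.coeff_mul, PowerSeries.coeff_mul, map_sum]
      refine Finset.sum_congr rfl fun x _ => ?_
      rw [Derivation.leibniz, hD _ (hT x.2 j), smul_zero, zero_add, smul_eq_mul, coeff_dp, mul_comm]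
    have h2 : aeval (gC γ) (Q * dp D (P j) - dp D Q * P j) = 0 := by
      rw [map_sub, map_mul, map_mul, h1, mul_left_comm, hQρ, sub_self]
    have h3 := (htr _).2 h2 n' hn'
    rw [map_sub, map_mul, map_mul, ev_dp, ev_dp, sub_eq_zero] at h3
    rw [Derivation.leibniz_div]
    simp only [smul_eq_mul]
    rw [h3]
    have h4 : D (evq n' Q) * evq n' (P j) - evq n' (P j) * D (evq n' Q) = 0 := by ring
    rw [h4, mul_zero]
  -- the conclusion
  have h7 := ev_P L Dl w w0 hdl n' r (fun a => hr (Dl a) (hDl a)) j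
  have h8 : r j = evq n' (P j) / evq n' Q := by
    rw [eq_div_iff hQ1, mul_comm]
    exact h7.symm
  rw [h8]
  exact hq

end Pool.Agent.SGA
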