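import Pool.Agent.Lib.MP_452a87_nt.SGA.Spec

/-!
# Theorem SGA, module SLa: spaces of matrices of bounded rank, along curves
-/

set_option autoImplicit false

namespace Pool.Agent.SGA

open MvPolynomial Pool.Agent.SMQ Pool.Agent.SG

namespace SLaAux

/-- Constant coefficient of a polynomial in power series. -/
theorem const_aeval {m : ℕ} (γ : Fin m → PowerSeries ℚ) (n0 : Fin m → ℚ)
    (h0 : ∀ i, PowerSeries.constantCoeff (γ i) = n0 i) (f : MvPolynomial (Fin m) ℚ) :
    PowerSeries.constantCoeff (aeval γ f) = eval n0 f := by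
  rw [MvPolynomial.map_aeval, MvPolynomial.eval, MvPolynomial.coe_eval₂Hom,
    MvPolynomial.coe_eval₂Hom]
  have h1 : ((PowerSeries.constantCoeff (R := ℚ)).comp (algebraMap ℚ (PowerSeries ℚ)))
      = RingHom.id ℚ := RingHom.ext_rat _ _
  rw [h1]
  congr 1
  funext i
  exact h0 i

/-- A determinant whose columns begin with the unit vectors, the last one divided by `t`,
is not zero. -/
theorem det_ne {a : ℕ} (M : Matrix (Option (Fin a)) (Option (Fin a)) (PowerSeries ℚ))
    (h1 : ∀ p k, PowerSeries.constantCoeff (M p (some k))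
      = (1 : Matrix (Option (Fin a)) (Option (Fin a)) ℚ) p (some k))
    (h2 : ∀ p, PowerSeries.constantCoeff (M p none) = 0)
    (h3 : ∀ p, PowerSeries.coeff 1 (M p none) = (1 : Matrix (Option (Fin a)) (Option (Fin a)) ℚ) p none) :
    M.det ≠ 0 := by
  have h4 : ∀ p, ∃ d : PowerSeries ℚ, M p none = PowerSeries.X * d := fun p =>
    PowerSeries.X_dvd_iff.2 (h2 p)
  choose d hd using h4
  have hd0 : ∀ p, PowerSeries.constantCoeff (d p)
      = (1 : Matrix (Option (Fin a)) (Option (Fin a)) ℚ) p none := by
    intro p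
    rw [← h3 p, hd p, ← PowerSeries.coeff_zero_eq_constantCoeff_apply]
    exact (PowerSeries.coeff_succ_X_mul 0 (d p)).symm
  let M' : Matrix (Option (Fin a)) (Option (Fin a)) (PowerSeries ℚ) :=
    Matrix.of fun p q => Option.elim q (d p) (fun k => M p (some k))
  let v : Option (Fin a) → PowerSeries ℚ := fun q => Option.elim q PowerSeries.X (fun _ => 1)
  have hM : M = Matrix.of fun p q => v q * M' p q := by
    ext1 p q
    cases q with
    | none => exact hd p
    | some k => exact (one_mul _).symm
  have hdet : M.det = PowerSeries.X * M'.det := by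
    rw [hM, Matrix.det_mul_row]
    congr 1
    rw [Fintype.prod_option]
    change PowerSeries.X * (∏ i : Fin a, (1 : PowerSeries ℚ)) = PowerSeries.X
    rw [Finset.prod_const_one, mul_one]
  have hM' : PowerSeries.constantCoeff M'.det = 1 := by
    rw [RingHom.map_det]
    have h5 : (PowerSeries.constantCoeff (R := ℚ)).mapMatrix M' = 1 := by
      ext p q
      cases q with
      | none => exact hd0 p
      | some k => exact h1 p k
    rw [h5, Matrix.det_one]
  rw [hdet]
  refine mul_ne_zero PowerSeries.X_ne_zero ?_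
  intro h0
  rw [h0, map_zero] at hM'
  exact zero_ne_one hM'

/-- The main claim. -/
theorem claim {e m : ℕ} {W : Type} [AddCommGroup W] [Module ℚ W] (S : Set (Fin m → ℚ))
    (A : (Fin m → ℚ) →ₗ[ℚ] (Fin e → ℚ) →ₗ[ℚ] W) (f : MvPolynomial (Fin m) ℚ) (n1 : Fin m → ℚ)
    (h1 : eval n1 f ≠ 0)
    (hmin : ∀ n ∈ S, eval n f ≠ 0 →
      Module.finrank ℚ (LinearMap.ker (A n1)) ≤ Module.finrank ℚ (LinearMap.ker (A n)))
    (γ : Fin m → PowerSeries ℚ) (hγ : Crv S n1 γ) (τ : Fin m → ℚ)
    (hτ : ∀ i, PowerSeries.coeff 1 (γ i) = τ i) (g : Fin e → ℚ) (hg : g ∈ LinearMap.ker (A n1)) :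
    A τ g ∈ LinearMap.range (A n1) := by
  by_contra hcon
  obtain ⟨K, hK⟩ := Submodule.exists_isCompl (LinearMap.ker (A n1))
  have hdim := Submodule.finrank_add_eq_of_isCompl hK
  rw [Module.finrank_fin_fun] at hdim
  let bK := Module.finBasis ℚ K
  let u : Option (Fin (Module.finrank ℚ K)) → (Fin e → ℚ) :=
    fun q => Option.elim q g (fun k => (bK k : Fin e → ℚ))
  let z : Option (Fin (Module.finrank ℚ K)) → W :=
    fun q => Option.elim q (A τ g) (fun k => A n1 (bK k : Fin e → ℚ))
  have hz : LinearMap.ker (Fintype.linearCombination ℚ z) = ⊥ := by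
    rw [LinearMap.ker_eq_bot']
    intro v hv
    rw [Fintype.linearCombination_apply, Fintype.sum_option] at hv
    have hv' : v none • A τ g + A n1 (∑ k, v (some k) • (bK k : Fin e → ℚ)) = 0 := by
      rw [map_sum]
      simp only [map_smul]
      exact hv
    have hn : v none = 0 := by
      by_contra hn
      apply hcon
      refine ⟨-((v none)⁻¹ • ∑ k, v (some k) • (bK k : Fin e → ℚ)), ?_⟩
      rw [map_neg, map_smul, eq_neg_of_add_eq_zero_right hv', smul_neg, neg_neg, smul_smul,
        inv_mul_cancel₀ hn, one_smul]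
    rw [hn, zero_smul, zero_add] at hv'
    have h3 : (((∑ k, v (some k) • bK k : K)) : Fin e → ℚ) ∈ LinearMap.ker (A n1) ⊓ K := by
      refine ⟨?_, Submodule.coe_mem _⟩
      change A n1 _ = 0
      rw [Submodule.coe_sum]
      exact hv'
    rw [hK.inf_eq_bot, Submodule.mem_bot] at h3
    have h4 : (∑ k, v (some k) • bK k : K) = 0 := Subtype.ext h3
    have h5 := Fintype.linearIndependent_iff.1 bK.linearIndependent _ h4
    funext q
    cases q with
    | none => exact hn
    | some k => exact h5 k
  obtain ⟨ψ, hψ⟩ := LinearMap.exists_leftInverse_of_injective _ hz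
  have hψz : ∀ q, ψ (z q) = Pi.single q 1 := by
    intro q
    have h3 : Fintype.linearCombination ℚ z (Pi.single q 1) = z q := by
      rw [Fintype.linearCombination_apply_single, one_smul]
    calc ψ (z q) = (ψ ∘ₗ Fintype.linearCombination ℚ z) (Pi.single q 1) := by
          rw [LinearMap.comp_apply, h3]
      _ = Pi.single q 1 := by rw [hψ, LinearMap.id_apply]
  have hone : ∀ p q, (ψ (z q)) p
      = (1 : Matrix (Option (Fin (Module.finrank ℚ K))) _ ℚ) p q := by
    intro p q
    rw [hψz, Matrix.one_apply, Pi.single_apply]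
  -- the coefficients of the linear forms
  let c : Fin m → Option (Fin (Module.finrank ℚ K)) → Option (Fin (Module.finrank ℚ K)) → ℚ :=
    fun i p q => ψ (A (Pi.single i 1) (u q)) p
  have hc : ∀ (n : Fin m → ℚ) p q, ∑ i, c i p q * n i = ψ (A n (u q)) p := by
    intro n p q
    have h3 : n = ∑ i, n i • (Pi.single i (1 : ℚ) : Fin m → ℚ) := by
      funext j
      rw [Finset.sum_apply]
      simp [Pi.single_apply]
    conv_rhs => rw [h3]
    rw [map_sum, LinearMap.sum_apply, map_sum, Finset.sum_apply]
    refine Finset.sum_congr rfl fun i _ => ?_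
    rw [map_smul, LinearMap.smul_apply, map_smul, Pi.smul_apply, smul_eq_mul, mul_comm]
  let MX : Matrix (Option (Fin (Module.finrank ℚ K))) (Option (Fin (Module.finrank ℚ K)))
      (MvPolynomial (Fin m) ℚ) := Matrix.of fun p q => ∑ i, c i p q • X i
  have hvan : Van S (f * MX.det) := by
    intro n hn
    rw [map_mul]
    by_cases hf : eval n f = 0
    · rw [hf, zero_mul]
    · have hr := hmin n hn hf
      have d3 := LinearMap.finrank_range_add_finrank_ker (A n)
      rw [Module.finrank_fin_fun] at d3
      have hdet : eval n MX.det = 0 := by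
        rw [RingHom.map_det]
        refine Matrix.exists_mulVec_eq_zero_iff.1 ?_
        let T : (Option (Fin (Module.finrank ℚ K)) → ℚ) →ₗ[ℚ] W :=
          A n ∘ₗ Fintype.linearCombination ℚ u
        have hT : ¬ Function.Injective T := by
          intro hinj
          have d1 := LinearMap.finrank_range_of_inj hinj
          have d2 : Module.finrank ℚ (LinearMap.range T) ≤
              Module.finrank ℚ (LinearMap.range (A n)) :=
            Submodule.finrank_mono (LinearMap.range_comp_le_range _ _)
          rw [Module.finrank_fintype_fun_eq_card, Fintype.card_option, Fintype.card_fin] at d1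
          omega
        rw [← LinearMap.ker_eq_bot, LinearMap.ker_eq_bot'] at hT
        push Not at hT
        obtain ⟨v, hv, hv0⟩ := hT
        refine ⟨v, hv0, ?_⟩
        funext p
        have h5 : ((eval n).mapMatrix MX).mulVec v p = ψ (T v) p := by
          have h6 : T v = ∑ q, v q • A n (u q) := by
            change A n (Fintype.linearCombination ℚ u v) = _
            rw [Fintype.linearCombination_apply, map_sum]
            simp only [map_smul]
          rw [h6, map_sum, Finset.sum_apply]
          change ∑ q, eval n (∑ i, c i p q • X i) * v q = _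
          refine Finset.sum_congr rfl fun q _ => ?_
          rw [map_smul, Pi.smul_apply, smul_eq_mul, ← hc n p q, map_sum, mul_comm]
          congr 1
          refine Finset.sum_congr rfl fun i _ => ?_
          rw [MvPolynomial.smul_eval, eval_X]
        rw [h5, hv, map_zero]
      rw [hdet, mul_zero]
  have hz0 := (hγ.2 _).2 hvan
  rw [map_mul] at hz0
  have hf0 : aeval γ f ≠ 0 := by
    intro h0
    apply h1
    rw [← const_aeval γ n1 hγ.1 f, h0, map_zero]
  have hG0 := (mul_eq_zero.1 hz0).resolve_left hf0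
  rw [AlgHom.map_det] at hG0
  have hent : ∀ (l : ℕ) (x : Fin m → ℚ), (∀ i, PowerSeries.coeff l (γ i) = x i) → ∀ p q,
      PowerSeries.coeff l ((AlgHom.mapMatrix (aeval γ) MX) p q) = ψ (A x (u q)) p := by
    intro l x hx p q
    change PowerSeries.coeff l (aeval γ (∑ i, c i p q • X i)) = _
    rw [map_sum, map_sum, ← hc x p q]
    refine Finset.sum_congr rfl fun i _ => ?_
    rw [map_smul, aeval_X, map_smul, smul_eq_mul, hx i]
  have hx0 : ∀ i, PowerSeries.coeff 0 (γ i) = n1 i := by
    intro i
    rw [PowerSeries.coeff_zero_eq_constantCoeff_apply]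
    exact hγ.1 i
  refine det_ne _ ?_ ?_ ?_ hG0
  · intro p k
    rw [← PowerSeries.coeff_zero_eq_constantCoeff_apply, hent 0 n1 hx0, ← hone p (some k)]
    rfl
  · intro p
    rw [← PowerSeries.coeff_zero_eq_constantCoeff_apply, hent 0 n1 hx0]
    change ψ (A n1 g) p = 0
    rw [LinearMap.mem_ker.1 hg, map_zero]
    rfl
  · intro p
    rw [hent 1 τ hτ, ← hone p none]
    rfl

end SLaAux

/-- **SLa.** -/
theorem pSLa : S_SLa := by
  classical
  intro e m r h S b W _ _ A f hf hcur hker
  obtain ⟨n0, hn0S, hn0⟩ : ∃ n0 ∈ S, eval n0 f ≠ 0 := by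
    by_contra hcon
    push Not at hcon
    exact hf hcon
  have hex : ∃ k : ℕ, ∃ n ∈ S, eval n f ≠ 0 ∧
      Module.finrank ℚ (LinearMap.ker (A n)) = k := ⟨_, n0, hn0S, hn0, rfl⟩
  obtain ⟨n1, hS1, h1, h2⟩ := Nat.find_spec hex
  have hmin : ∀ n ∈ S, eval n f ≠ 0 →
      Module.finrank ℚ (LinearMap.ker (A n1)) ≤ Module.finrank ℚ (LinearMap.ker (A n)) := by
    intro n hnS hn
    rw [h2]
    exact Nat.find_min' hex ⟨n, hnS, hn, rfl⟩
  -- the space of the tangent vectors
  let 𝒯 : Submodule ℚ (Fin m → ℚ) :=
    { carrier := {t | ∀ g ∈ LinearMap.ker (A n1), A t g ∈ LinearMap.range (A n1)}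
      add_mem' := by
        intro t t' ht ht' g hg
        rw [map_add, LinearMap.add_apply]
        exact Submodule.add_mem _ (ht g hg) (ht' g hg)
      zero_mem' := by
        intro g _
        rw [map_zero, LinearMap.zero_apply]
        exact Submodule.zero_mem _
      smul_mem' := by
        intro c t ht g hg
        rw [map_smul, LinearMap.smul_apply]
        exact Submodule.smul_mem _ _ (ht g hg) }
  have hT : ∀ t ∈ 𝒯, ∀ g ∈ LinearMap.ker (A n1), A t g ∈ LinearMap.range (A n1) :=
    fun t ht => ht
  let π : 𝒯 →ₗ[ℚ] (Fin r → ℚ) := (LinearMap.funLeft ℚ ℚ b).domRestrict 𝒯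
  have hπ : Function.Surjective π := by
    intro w
    obtain ⟨γ, hγ, hw⟩ := hcur n1 hS1 h1 w
    refine ⟨⟨fun i => PowerSeries.coeff 1 (γ i), ?_⟩, ?_⟩
    · intro g hg
      exact SLaAux.claim S A f n1 h1 hmin γ hγ _ (fun _ => rfl) g hg
    · funext i
      exact hw i
  have hr : r ≤ Module.finrank ℚ 𝒯 := by
    have h3 := LinearMap.finrank_le_finrank_of_surjective hπ
    rwa [Module.finrank_fin_fun] at h3
  let Φ : 𝒯 →ₗ[ℚ] (LinearMap.ker (A n1) →ₗ[ℚ] LinearMap.range (A n1)) :=
    { toFun := fun t => LinearMap.codRestrict (LinearMap.range (A n1))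
        ((A (t : Fin m → ℚ)).domRestrict (LinearMap.ker (A n1))) (fun γ => hT t t.2 γ γ.2)
      map_add' := by
        intro n n'
        ext γ
        change A ((n : Fin m → ℚ) + n') γ = A n γ + A n' γ
        rw [map_add, LinearMap.add_apply]
      map_smul' := by
        intro c n
        ext γ
        change A (c • (n : Fin m → ℚ)) γ = c • A n γ
        rw [map_smul, LinearMap.smul_apply] }
  refine ⟨LinearMap.ker (A n1), (LinearMap.ker Φ).map 𝒯.subtype, hker n1 hS1 h1, ?_, ?_⟩
  · have d0 : Module.finrank ℚ ((LinearMap.ker Φ).map 𝒯.subtype) =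
        Module.finrank ℚ (LinearMap.ker Φ) :=
      LinearEquiv.finrank_eq
        (Submodule.equivMapOfInjective 𝒯.subtype 𝒯.subtype_injective (LinearMap.ker Φ)).symm
    rw [d0]
    have d1 := LinearMap.finrank_range_add_finrank_ker Φ
    have d2 := Submodule.finrank_le (LinearMap.range Φ)
    rw [Module.finrank_linearMap] at d2
    have d3 : Module.finrank ℚ (LinearMap.ker (A n1)) ≤ e := by
      have := Submodule.finrank_le (LinearMap.ker (A n1))
      rwa [Module.finrank_fin_fun] at this
    have d4 : Module.finrank ℚ (LinearMap.range (A n1)) ≤ e := by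
      have := LinearMap.finrank_range_le (A n1)
      rwa [Module.finrank_fin_fun] at this
    have d5 := Nat.mul_le_mul d3 d4
    omega
  · rintro _ ⟨t, ht, rfl⟩ γ hγ
    have h3 : Φ t ⟨γ, hγ⟩ = 0 := by
      rw [LinearMap.mem_ker.1 ht]
      rfl
    exact congrArg Subtype.val h3

end Pool.Agent.SGA
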