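import Pool.Agent.Lib.MP_452a87_nt.SGA.Spec

/-!
# Theorem SGA: the main theorem, an irreducible set of bad points has bounded dimension
-/

set_option autoImplicit false

namespace Pool.Agent.SGA

open MvPolynomial Pool.Agent.SMQ Pool.Agent.SG

namespace SMnAux

lemma lq_add {m : ℕ} (L : Fin m → ℂ) (n n' : Fin m → ℚ) : lq L (n + n') = lq L n + lq L n' := by
  unfold lq
  rw [← Finset.sum_add_distrib]
  refine Finset.sum_congr rfl fun i _ => ?_
  rw [Pi.add_apply]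
  push_cast
  ring

lemma lq_smul {m : ℕ} (L : Fin m → ℂ) (c : ℚ) (n : Fin m → ℚ) : lq L (c • n) = (c : ℂ) * lq L n := by
  unfold lq
  rw [Finset.mul_sum]
  refine Finset.sum_congr rfl fun i _ => ?_
  rw [Pi.smul_apply, smul_eq_mul]
  push_cast
  ring

/-- The bilinear map. -/
noncomputable def bil {e m : ℕ} (v : Fin e → ℂ) (L : Fin m → ℂ) (U : Submodule ℚ ℂ) :
    (Fin m → ℚ) →ₗ[ℚ] (Fin e → ℚ) →ₗ[ℚ] (ℂ ⧸ U) :=
  LinearMap.mk₂ ℚ (fun n q => U.mkQ ((∑ k, (q k : ℂ) * v k) * lq L n))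
    (by
      intro n n' q
      rw [lq_add, mul_add, map_add])
    (by
      intro c n q
      rw [lq_smul, ← map_smul]
      congr 1
      rw [Rat.smul_def]
      ring)
    (by
      intro n q q'
      rw [← map_add]
      congr 1
      rw [← add_mul, ← Finset.sum_add_distrib]
      congr 1
      refine Finset.sum_congr rfl fun i _ => ?_
      rw [Pi.add_apply]
      push_cast
      ring)
    (by
      intro c n q
      rw [← map_smul]
      congr 1
      rw [Rat.smul_def, ← mul_assoc, Finset.mul_sum]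
      congr 1
      refine Finset.sum_congr rfl fun i _ => ?_
      rw [Pi.smul_apply, smul_eq_mul]
      push_cast
      ring)

lemma bil_apply {e m : ℕ} (v : Fin e → ℂ) (L : Fin m → ℂ) (U : Submodule ℚ ℂ) (n : Fin m → ℚ) (q : Fin e → ℚ) :
    bil v L U n q = U.mkQ ((∑ k, (q k : ℂ) * v k) * lq L n) := rfl

lemma bil_eq_zero {e m : ℕ} (v : Fin e → ℂ) (L : Fin m → ℂ) (U : Submodule ℚ ℂ) (n : Fin m → ℚ) (q : Fin e → ℚ) :
    bil v L U n q = 0 ↔ (∑ k, (q k : ℂ) * v k) * lq L n ∈ U := by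
  rw [bil_apply, Submodule.mkQ_apply, Submodule.Quotient.mk_eq_zero]

lemma not_van_mul {m : ℕ} {S : Set (Fin m → ℚ)} (hS : Ird S) {P Q : MvPolynomial (Fin m) ℚ} (hP : ¬ Van S P) (hQ : ¬ Van S Q) :
    ¬ Van S (P * Q) := fun h => (hS.2 P Q h).elim hP hQ

lemma exists_of_not_van {m : ℕ} {S : Set (Fin m → ℚ)} {P : MvPolynomial (Fin m) ℚ} (hP : ¬ Van S P) :
    ∃ n ∈ S, MvPolynomial.eval n P ≠ 0 := by
  by_contra hcon
  push Not at hcon
  exact hP hcon

end SMnAux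

open SMnAux

theorem pSMn (hSMb : S_SMb) (hSMx : S_SMx) (hSMr : S_SMr) (hAVn : S_AVn) (hSNz : S_SNz) (hSLa : S_SLa) (hSMt : S_SMt)
    (hSCu : S_SCu) (hAIn : S_AIn) (hATc : S_ATc) (hAcl : S_Acl) (hAEx : S_AEx) (_hAdl : S_Adl) : S_SMn := by
  classical
  intro e m t v L S Ω _ _ x hv hva hL hLa hS hbad hGp hTr
  by_contra hlt
  push Not at hlt
  obtain ⟨c, hci, hca⟩ := hTr
  obtain ⟨f, hf0, hf⟩ := hSCu m t S Ω x c hGp hci hca
  obtain ⟨τ, b, P, hbi, hP0, hPB, hbmax⟩ := hSMb e m v L S hS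
  have hBcl : Cl (cl (Set.range b)) := hAcl.2.1 _
  obtain ⟨s, J, Dl, hse, hJ, hDl, hex, hMx⟩ := hSMx (cl (Set.range b)) e m v L S hS.1
  obtain ⟨P1, hP10, hP1⟩ := hSNz m s S L Dl (fun j => v (J j)) hex
  have hMr := hSMr e m τ s v L S b f P J Dl hS hf0 hP0
    (fun n0 hn0 hfn => (hf n0 hn0 hfn 0).imp fun γ hγ => hγ.1) hPB hbmax hDl hex hMx
  obtain ⟨U, hU⟩ := hAEx.1 (cl (Set.range b)) hBcl
  have hker : ∀ n ∈ S, MvPolynomial.eval n (f * P1) ≠ 0 → e - s ≤ Module.finrank ℚ (LinearMap.ker (bil v L U n)) := by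
    intro n hnS hn
    rw [map_mul] at hn
    have hdet := hP1 n (right_ne_zero_of_mul hn)
    choose r hr using fun i => hMx n hnS i hdet
    have hrB : ∀ i j, r i j ∈ cl (Set.range b) := fun i => hMr n hnS i (r i) hdet (hr i)
    obtain ⟨VB, hVB1, hVB2⟩ := hAVn (cl (Set.range b)) hBcl e s J (fun k => v k * lq L n) r hJ hrB hr
    have hle : VB ≤ LinearMap.ker (bil v L U n) := by
      intro q hq
      rw [LinearMap.mem_ker, bil_eq_zero, hU]
      have h1 := hVB1 q hq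
      have h2 : (∑ k, (q k : ℂ) * v k) * lq L n = ∑ k, (q k : ℂ) * (v k * lq L n) := by
        rw [Finset.sum_mul]
        exact Finset.sum_congr rfl fun k _ => by ring
      rw [h2]
      exact h1
    have h3 := Submodule.finrank_mono hle
    omega
  have hcur : ∀ n0 ∈ S, MvPolynomial.eval n0 (f * P1) ≠ 0 → ∀ w : Fin t → ℚ, ∃ γ : Fin m → PowerSeries ℚ,
      Crv S n0 γ ∧ ∀ i, PowerSeries.coeff 1 (γ (c i)) = w i := by
    intro n0 hn0 hfn
    rw [map_mul] at hfn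
    exact hf n0 hn0 (left_ne_zero_of_mul hfn)
  obtain ⟨Γ, Λ, hΓ, hΛ, hΓΛ⟩ := hSLa e m t (e - s) S c (ℂ ⧸ U) (bil v L U) (f * P1) (not_van_mul hS hf0 hP10) hcur hker
  have hτ : Module.finrank ℚ Γ ≤ τ := hSMt e m t τ v L b Γ Λ hv hva hL hLa hlt hΛ (fun n hn γ hγ => by
    have h1 := hΓΛ n hn γ hγ
    rw [bil_eq_zero, hU] at h1
    exact h1)
  -- a generic n
  obtain ⟨n, hnS, hn⟩ := exists_of_not_van (not_van_mul hS hP0 hP10)
  rw [map_mul] at hn
  have hnP : MvPolynomial.eval n P ≠ 0 := left_ne_zero_of_mul hn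
  have hnP1 : MvPolynomial.eval n P1 ≠ 0 := right_ne_zero_of_mul hn
  apply hbad n hnS
  have hdet := hP1 n hnP1
  set g : Fin s → ℂ := fun j => Complex.exp (v (J j) * lq L n) with hg
  have hdet' : (Matrix.of fun a j => Dl a (g j)).det ≠ 0 := by
    have h1 : (Matrix.of fun a j => Dl a (g j)) = Matrix.of fun a j => g j * dm Dl (fun j => v (J j) * lq L n) a j := by
      ext a j
      simp only [Matrix.of_apply, dm, dl, hg]
      rw [mul_div_cancel₀ _ (Complex.exp_ne_zero _)]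
    rw [h1, Matrix.det_mul_row]
    exact mul_ne_zero (Finset.prod_ne_zero_iff.mpr fun j _ => Complex.exp_ne_zero _) hdet
  have hind := hAIn τ s b g Dl hbi hDl hdet'
  have hmem : ∀ i : Fin τ ⊕ Fin s, Sum.elim b g i ∈ cl (Set.range fun k => Complex.exp (v k * lq L n)) := by
    rintro (i | j)
    · exact hPB n hnS hnP (hAcl.2.2.1 _ ⟨i, rfl⟩)
    · exact hAcl.2.2.1 _ ⟨J j, rfl⟩
  have h1 := hATc (Fin τ ⊕ Fin s) (Fin e) (Sum.elim b g) (fun k => Complex.exp (v k * lq L n)) hind hmem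
  apply h1.2
  rw [Fintype.card_fin, Fintype.card_sum, Fintype.card_fin, Fintype.card_fin]
  omega

end Pool.Agent.SGA
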