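import Pool.Agent.Lib.MP_452a87_nt.SGA.Spec

/-!
# Theorem SGA: the kernel is defined over `B`
-/

set_option autoImplicit false

namespace Pool.Agent.SGA

open MvPolynomial Pool.Agent.SMQ Pool.Agent.SG

theorem pSMr (hSKD : S_SKD) (hSNz : S_SNz) (hAcl : S_Acl) (_hAdl : S_Adl) : S_SMr := by
  classical
  intro e m τ s v L S b f P J Dl hIrd hf hP hcurve hPB hbmax hDl hex hMx n' hn' i r hdet hr j
  obtain ⟨P1, hP10, hP1⟩ := hSNz m s S L Dl (fun j => v (J j)) hex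
  have hfP : ¬ Van S (f * P) := fun h => (hIrd.2 _ _ h).elim hf hP
  have hfPP : ¬ Van S (f * P * P1) := fun h => (hIrd.2 _ _ h).elim hfP hP10
  refine hbmax (r j) (f * P * P1) hfPP (fun n0 hn0S hn => ?_)
  rw [map_mul, map_mul] at hn
  have hnf : MvPolynomial.eval n0 f ≠ 0 := left_ne_zero_of_mul (left_ne_zero_of_mul hn)
  have hnP : MvPolynomial.eval n0 P ≠ 0 := right_ne_zero_of_mul (left_ne_zero_of_mul hn)
  have hnP1 : MvPolynomial.eval n0 P1 ≠ 0 := right_ne_zero_of_mul hn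
  obtain ⟨γ, hγ⟩ := hcurve n0 hn0S hnf
  exact hSKD (cl (Set.range b)) (cl (Set.range fun k => Complex.exp (v k * lq L n0))) (hAcl.2.1 _)
    (hPB n0 hn0S hnP) m s S L (fun j => v (J j)) (v i) Dl n0 γ hDl hn0S hγ
    (fun j => hAcl.2.2.1 _ ⟨J j, rfl⟩) (hAcl.2.2.1 _ ⟨i, rfl⟩) (hP1 n0 hnP1)
    (fun n hn hd => hMx n hn i hd) n' hn' hdet r hr j

end Pool.Agent.SGA
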