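import Pool.Agent.Lib.MP_452a87_nt.SGA.Spec

/-!
# Theorem SGA: the generic rank on a set of rational points
-/

set_option autoImplicit false

namespace Pool.Agent.SGA

open MvPolynomial Pool.Agent.SMQ Pool.Agent.SG

namespace SMxAux

/-- There is a nonvanishing minor of size `s`. -/
private def Q (B : IntermediateField ℚ ℂ) (e m : ℕ) (v : Fin e → ℂ) (L : Fin m → ℂ)
    (S : Set (Fin m → ℚ)) (s : ℕ) : Prop :=
  ∃ (J : Fin s → Fin e) (Dl : Fin s → Derivation ℚ ℂ ℂ), (∀ a, Dl a ∈ DB B) ∧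
    ∃ n ∈ S, (dm Dl (fun j => v (J j) * lq L n)).det ≠ 0

private theorem inj {e m s : ℕ} {v : Fin e → ℂ} {L : Fin m → ℂ} {J : Fin s → Fin e}
    {Dl : Fin s → Derivation ℚ ℂ ℂ} {n : Fin m → ℚ}
    (h : (dm Dl (fun j => v (J j) * lq L n)).det ≠ 0) : Function.Injective J := by
  intro j j' hj
  by_contra hne
  apply h
  refine Matrix.det_zero_of_column_eq hne fun a => ?_
  change dl (Dl a) (v (J j) * lq L n) = dl (Dl a) (v (J j') * lq L n)
  rw [hj]

private theorem le {e m s : ℕ} {v : Fin e → ℂ} {L : Fin m → ℂ} {J : Fin s → Fin e}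
    {Dl : Fin s → Derivation ℚ ℂ ℂ} {n : Fin m → ℚ}
    (h : (dm Dl (fun j => v (J j) * lq L n)).det ≠ 0) : s ≤ e := by
  have := Fintype.card_le_of_injective J (inj h)
  simpa using this

/-- The functional `D ↦ dl D u` on `DB B`. -/
private noncomputable def fn (hA : S_Adl) (B : IntermediateField ℚ ℂ) (u : ℂ) : DB B →ₗ[ℂ] ℂ where
  toFun D := dl D u
  map_add' D D' := hA.2.2.2.1 D D' u
  map_smul' c D := hA.2.2.1 c D u

end SMxAux

open SMxAux in
theorem pSMx : S_ALf → S_Adl → S_SMx := by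
  intro hL hA B e m v L S hS
  obtain ⟨z₀, hz₀⟩ := hS
  have hmax : ∃ s, Q B e m v L S s ∧ ¬ Q B e m v L S (s + 1) := by
    by_contra hcon
    push Not at hcon
    have hall : ∀ s, Q B e m v L S s := by
      intro s
      induction s with
      | zero =>
        refine ⟨fun j => j.elim0, fun j => j.elim0, fun j => j.elim0, z₀, hz₀, ?_⟩
        rw [Matrix.det_isEmpty]
        exact one_ne_zero
      | succ s ih => exact hcon s ih
    obtain ⟨J, Dl, -, n, -, hn⟩ := hall (e + 1)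
    have := le hn
    omega
  obtain ⟨s, ⟨J, Dl, hDl, n₀, hS₀, hn₀⟩, hnot⟩ := hmax
  refine ⟨s, J, Dl, le hn₀, inj hn₀, hDl, ⟨n₀, hS₀, hn₀⟩, fun n hnS i hn => ?_⟩
  by_contra hcon
  push Not at hcon
  apply hnot
  set f : Fin s → (DB B →ₗ[ℂ] ℂ) := fun j => fn hA B (v (J j) * lq L n) with hf
  have hli : LinearIndependent ℂ f := by
    rw [Fintype.linearIndependent_iff]
    intro c hc
    have h1 : (dm Dl (fun j => v (J j) * lq L n)).mulVec c = 0 := by
      ext a
      have h2 := LinearMap.congr_fun hc ⟨Dl a, hDl a⟩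
      rw [LinearMap.sum_apply, LinearMap.zero_apply] at h2
      rw [Pi.zero_apply, ← h2]
      change ∑ j, dl (Dl a) (v (J j) * lq L n) * c j =
        ∑ j, c j * dl (Dl a) (v (J j) * lq L n)
      exact Finset.sum_congr rfl fun j _ => mul_comm _ _
    have h3 := Matrix.eq_zero_of_mulVec_eq_zero hn h1
    exact fun j => congrFun h3 j
  obtain ⟨y, hy⟩ := (hL (DB B) s f).2 (fn hA B (v i * lq L n)) (fun r hr => by
    obtain ⟨D, hD, hne⟩ := hcon r
    apply hne
    have h2 := LinearMap.congr_fun hr ⟨D, hD⟩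
    rw [LinearMap.sum_apply] at h2
    exact h2) hli
  refine ⟨Fin.cons i J, fun a => (y a : Derivation ℚ ℂ ℂ), fun a => (y a).2, n, hnS, ?_⟩
  have h4 : dm (fun a => (y a : Derivation ℚ ℂ ℂ))
      (fun j => v ((Fin.cons i J : Fin (s + 1) → Fin e) j) * lq L n) =
      Matrix.of fun a j =>
        (Fin.cons (fn hA B (v i * lq L n)) f : Fin (s + 1) → DB B →ₗ[ℂ] ℂ) j (y a) := by
    ext a j
    refine Fin.cases ?_ (fun j => ?_) j
    · rfl
    · rfl
  rw [h4]
  exact hy

end Pool.Agent.SGA
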