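import Pool.Agent.Lib.MP_452a87_nt.SGA.Spec

/-!
# Theorem SGA: Noetherian induction (SNo)
-/

set_option autoImplicit false

namespace Pool.Agent.SGA

open MvPolynomial Pool.Agent.SMQ Pool.Agent.SG

namespace SNoAux

/-- The integral points of `S` in the box. -/
def pts {m : ℕ} (H : ℕ) (S : Set (Fin m → ℚ)) : Set (Fin m → ℤ) :=
  {n | (∀ i, |n i| ≤ (H : ℤ)) ∧ (fun i => (n i : ℚ)) ∈ S}

/-- The points of `Bad` at which the polynomials in `I` vanish. -/
def Z {m : ℕ} (Bad : Set (Fin m → ℚ)) (I : Ideal (MvPolynomial (Fin m) ℚ)) : Set (Fin m → ℚ) :=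
  {n | n ∈ Bad ∧ ∀ P ∈ I, eval n P = 0}

theorem box_finite (m H : ℕ) : {n : Fin m → ℤ | ∀ i, |n i| ≤ (H : ℤ)}.Finite := by
  refine (Set.finite_Icc (fun _ => -(H : ℤ) : Fin m → ℤ) (fun _ => (H : ℤ))).subset ?_
  intro n hn
  exact ⟨fun i => (abs_le.1 (hn i)).1, fun i => (abs_le.1 (hn i)).2⟩

theorem pts_finite {m : ℕ} (H : ℕ) (S : Set (Fin m → ℚ)) : (pts H S).Finite :=
  (box_finite m H).subset fun _ hn => hn.1

theorem lt_sup {m : ℕ} {I : Ideal (MvPolynomial (Fin m) ℚ)} {P : MvPolynomial (Fin m) ℚ}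
    (hP : P ∉ I) : I < I ⊔ Ideal.span {P} := by
  refine lt_of_le_of_ne le_sup_left fun h => hP ?_
  rw [h]
  exact (le_sup_right : Ideal.span {P} ≤ I ⊔ Ideal.span {P}) (Ideal.subset_span rfl)

theorem mem_sup {m : ℕ} {Bad : Set (Fin m → ℚ)} {I : Ideal (MvPolynomial (Fin m) ℚ)}
    {P : MvPolynomial (Fin m) ℚ} {n : Fin m → ℚ} (hn : n ∈ Z Bad I) (h : eval n P = 0) :
    n ∈ Z Bad (I ⊔ Ideal.span {P}) := by
  refine ⟨hn.1, ?_⟩
  have h1 : I ⊔ Ideal.span {P} ≤ RingHom.ker (eval n) := by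
    refine sup_le (fun Q hQ => ?_) (Ideal.span_le.2 ?_)
    · rw [RingHom.mem_ker]
      exact hn.2 Q hQ
    · intro Q hQ
      rw [Set.mem_singleton_iff] at hQ
      rw [hQ, SetLike.mem_coe, RingHom.mem_ker]
      exact h
  intro Q hQ
  exact RingHom.mem_ker.1 (h1 hQ)

end SNoAux

open SNoAux

theorem pSNo : S_SGp → S_SCt → S_TrE → S_SNo := by
  intro hGp hCt hTr m c Bad hBad
  have key : ∀ I : Ideal (MvPolynomial (Fin m) ℚ), ∃ C : ℕ, ∀ H : ℕ, 1 ≤ H →
      (pts H (Z Bad I)).ncard ≤ C * H ^ c := by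
    intro I
    induction I using WellFoundedGT.induction with
    | ind I ih =>
    by_cases hne : (Z Bad I).Nonempty
    · by_cases hI : Ird (Z Bad I)
      · obtain ⟨Ω, iF, iC, x, hx⟩ := hGp m (Z Bad I) hI
        obtain ⟨r, hr⟩ := hTr (Fin m) Ω x
        have hrc : r ≤ c := hBad (Z Bad I) Ω x r (fun n hn => hn.1) hI hx hr
        obtain ⟨f, C, hf, hC⟩ := hCt m r (Z Bad I) Ω x hx hr
        have hfI : f ∉ I := fun h => hf fun n hn => hn.2 f h
        obtain ⟨C', hC'⟩ := ih _ (lt_sup hfI)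
        refine ⟨C + C', fun H hH => ?_⟩
        have h1 : pts H (Z Bad I) ⊆ {n : Fin m → ℤ | (∀ i, |n i| ≤ (H : ℤ)) ∧
            (fun i => (n i : ℚ)) ∈ Z Bad I ∧ eval (fun i => (n i : ℚ)) f ≠ 0} ∪
            pts H (Z Bad (I ⊔ Ideal.span {f})) := by
          intro n hn
          by_cases h2 : eval (fun i => (n i : ℚ)) f = 0
          · exact Or.inr ⟨hn.1, mem_sup hn.2 h2⟩
          · exact Or.inl ⟨hn.1, hn.2, h2⟩
        have h2 : ({n : Fin m → ℤ | (∀ i, |n i| ≤ (H : ℤ)) ∧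
            (fun i => (n i : ℚ)) ∈ Z Bad I ∧ eval (fun i => (n i : ℚ)) f ≠ 0}).Finite :=
          (box_finite m H).subset fun _ hn => hn.1
        calc (pts H (Z Bad I)).ncard ≤ _ :=
              Set.ncard_le_ncard h1 (h2.union (pts_finite _ _))
          _ ≤ _ := Set.ncard_union_le _ _
          _ ≤ C * H ^ r + C' * H ^ c := add_le_add (hC H hH) (hC' H hH)
          _ ≤ C * H ^ c + C' * H ^ c :=
              add_le_add (Nat.mul_le_mul_left _ (Nat.pow_le_pow_right hH hrc)) le_rfl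
          _ = (C + C') * H ^ c := by ring
      · have h3 : ∃ P Q : MvPolynomial (Fin m) ℚ, Van (Z Bad I) (P * Q) ∧ ¬ Van (Z Bad I) P ∧
            ¬ Van (Z Bad I) Q := by
          by_contra hcon
          refine hI ⟨hne, fun P Q hPQ => ?_⟩
          by_contra h4
          rw [not_or] at h4
          exact hcon ⟨P, Q, hPQ, h4.1, h4.2⟩
        obtain ⟨P, Q, hPQ, hP, hQ⟩ := h3
        have hPI : P ∉ I := fun h => hP fun n hn => hn.2 P h
        have hQI : Q ∉ I := fun h => hQ fun n hn => hn.2 Q h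
        obtain ⟨C1, hC1⟩ := ih _ (lt_sup hPI)
        obtain ⟨C2, hC2⟩ := ih _ (lt_sup hQI)
        refine ⟨C1 + C2, fun H hH => ?_⟩
        have h1 : pts H (Z Bad I) ⊆ pts H (Z Bad (I ⊔ Ideal.span {P})) ∪
            pts H (Z Bad (I ⊔ Ideal.span {Q})) := by
          intro n hn
          have h4 := hPQ _ hn.2
          rw [map_mul, mul_eq_zero] at h4
          rcases h4 with h4 | h4
          · exact Or.inl ⟨hn.1, mem_sup hn.2 h4⟩
          · exact Or.inr ⟨hn.1, mem_sup hn.2 h4⟩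
        calc (pts H (Z Bad I)).ncard ≤ _ :=
              Set.ncard_le_ncard h1 ((pts_finite _ _).union (pts_finite _ _))
          _ ≤ _ := Set.ncard_union_le _ _
          _ ≤ C1 * H ^ c + C2 * H ^ c := add_le_add (hC1 H hH) (hC2 H hH)
          _ = (C1 + C2) * H ^ c := by ring
    · refine ⟨0, fun H _ => ?_⟩
      have h1 : pts H (Z Bad I) = ∅ := by
        rw [Set.eq_empty_iff_forall_notMem]
        intro n hn
        exact hne ⟨_, hn.2⟩
      rw [h1, Set.ncard_empty]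
      exact Nat.zero_le _
  obtain ⟨C, hC⟩ := key ⊥
  refine ⟨C, fun H hH => ?_⟩
  have h1 : {n : Fin m → ℤ | (∀ i, |n i| ≤ (H : ℤ)) ∧ (fun i => (n i : ℚ)) ∈ Bad} =
      pts H (Z Bad ⊥) := by
    ext n
    constructor
    · rintro ⟨h2, h3⟩
      refine ⟨h2, h3, fun P hP => ?_⟩
      rw [Ideal.mem_bot] at hP
      rw [hP, map_zero]
    · rintro ⟨h2, h3⟩
      exact ⟨h2, h3.1⟩
  rw [h1]
  exact hC H hH

end Pool.Agent.SGA
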