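import Pool.Agent.Lib.MP_452a87_nt.SGA.Spec

set_option autoImplicit false

/-!
# Theorem SGA, module SNz: the determinants are polynomials in `n` (adaptation of SG/ANz)
-/

namespace Pool.Agent.SGA

open MvPolynomial Pool.Agent.SMQ Pool.Agent.SG

namespace SNzAux

/-- Applying a `ℚ`-linear functional to the coefficients, nonvanishing at a given point. -/
theorem exists_dual {m : ℕ} (R : MvPolynomial (Fin m) ℂ) (n1 : Fin m → ℚ)
    (hR : MvPolynomial.eval (fun i => (n1 i : ℂ)) R ≠ 0) :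
    ∃ P : MvPolynomial (Fin m) ℚ, MvPolynomial.eval n1 P ≠ 0 ∧
      ∀ n : Fin m → ℚ, MvPolynomial.eval n P ≠ 0 →
        MvPolynomial.eval (fun i => (n i : ℂ)) R ≠ 0 := by
  obtain ⟨ψ, hψ⟩ : ∃ ψ : ℂ →ₗ[ℚ] ℚ, ψ (MvPolynomial.eval (fun i => (n1 i : ℂ)) R) ≠ 0 := by
    by_contra hcon
    push Not at hcon
    exact hR ((Module.forall_dual_apply_eq_zero_iff ℚ _).1 hcon)
  let P : MvPolynomial (Fin m) ℚ := ∑ μ ∈ R.support, MvPolynomial.monomial μ (ψ (R.coeff μ))
  have hev : ∀ n : Fin m → ℚ, MvPolynomial.eval n P = ψ (MvPolynomial.eval (fun i => (n i : ℂ)) R) := by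
    intro n
    change MvPolynomial.eval n (∑ μ ∈ R.support, MvPolynomial.monomial μ (ψ (R.coeff μ))) = _
    rw [map_sum, MvPolynomial.eval_eq, map_sum]
    apply Finset.sum_congr rfl
    intro μ _
    rw [MvPolynomial.eval_monomial]
    have h2 : R.coeff μ * ∏ i ∈ μ.support, (n i : ℂ) ^ μ i =
        (∏ i ∈ μ.support, n i ^ μ i : ℚ) • R.coeff μ := by
      rw [Algebra.smul_def, mul_comm]
      congr 1
      simp
    rw [h2, map_smul, smul_eq_mul, mul_comm]
    rfl
  refine ⟨P, ?_, ?_⟩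
  · rw [hev]
    exact hψ
  · intro n hn h0
    apply hn
    rw [hev, h0, map_zero]

end SNzAux

theorem pSNz (h : S_Adl) : S_SNz := by
  obtain ⟨-, -, -, -, -, h6, -⟩ := h
  intro m s S L Dl w hn
  let A : Matrix (Fin s) (Fin s) (MvPolynomial (Fin m) ℂ) :=
    Matrix.of fun a j => ∑ i, C (dl (Dl a) (w j * L i)) * X i
  have hA : ∀ a j, A a j = ∑ i, C (dl (Dl a) (w j * L i)) * X i := fun a j => rfl
  have hev : ∀ n : Fin m → ℚ, MvPolynomial.eval (fun i => (n i : ℂ)) A.det =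
      (dm Dl (fun j => w j * lq L n)).det := by
    intro n
    rw [RingHom.map_det]
    congr 1
    ext a j
    rw [RingHom.mapMatrix_apply, Matrix.map_apply, hA, dm, Matrix.of_apply, map_sum]
    have h1 : w j * lq L n = ∑ i, (n i : ℂ) * (w j * L i) := by
      rw [lq, Finset.mul_sum]
      apply Finset.sum_congr rfl
      intro i _
      ring
    rw [h1, h6]
    apply Finset.sum_congr rfl
    intro i _
    rw [map_mul, eval_C, eval_X, mul_comm]
  obtain ⟨n1, hn1, hdet⟩ := hn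
  obtain ⟨P, hP0, hP⟩ := SNzAux.exists_dual A.det n1 (by rw [hev]; exact hdet)
  refine ⟨P, fun hV => hP0 (hV n1 hn1), fun n hn => ?_⟩
  rw [← hev]
  exact hP n hn

end Pool.Agent.SGA
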