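import Pool.Agent.Lib.MP_452a87_nt.SGA.Spec

/-!
# Theorem SGA, module SPE: primitive element with polynomials
-/

set_option autoImplicit false

namespace Pool.Agent.SGA

open MvPolynomial Pool.Agent.SMQ Pool.Agent.SG

namespace SPEAux

section

variable {R K Ω : Type} [CommRing R] [IsDomain R] [Field K] [Algebra R K] [IsFractionRing R K]
  [Field Ω] [Algebra K Ω] [Algebra R Ω] [IsScalarTower R K Ω]

omit [IsDomain R] in
/-- Clearing denominators. -/
theorem clr [Nontrivial R] (P : Polynomial K) : ∃ (d : R) (P' : Polynomial R), d ≠ 0 ∧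
    P'.map (algebraMap R K) = Polynomial.C (algebraMap R K d) * P := by
  obtain ⟨b, hb, hb'⟩ := IsLocalization.integerNormalization_spec (nonZeroDivisors R) P
  refine ⟨b, IsLocalization.integerNormalization (nonZeroDivisors R) P,
    nonZeroDivisors.ne_zero hb, ?_⟩
  rw [hb', Algebra.smul_def, IsScalarTower.algebraMap_apply R K (Polynomial K),
    Polynomial.algebraMap_eq]

omit [IsDomain R] [IsFractionRing R K] in
theorem ev_map (θ : Ω) (G : Polynomial R) :
    Polynomial.aeval θ (G.map (algebraMap R K)) = Polynomial.aeval θ G :=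
  Polynomial.aeval_map_algebraMap K θ G

theorem core [CharZero K] (m : ℕ) (x : Fin m → Ω) (θ : Ω) (hθ : IsIntegral K θ)
    (hx : ∀ i, x i ∈ Algebra.adjoin K {θ}) :
    ∃ (g : Polynomial R) (δ : R) (h : Fin m → Polynomial R), δ ≠ 0 ∧
      Polynomial.aeval θ g = 0 ∧ Polynomial.aeval θ g.derivative ≠ 0 ∧
      (∀ i, algebraMap R Ω δ * x i = Polynomial.aeval θ (h i)) ∧
      ∀ G : Polynomial R,
        (Polynomial.aeval θ G = 0 ∧
          ∃ (c : R) (k : Polynomial R), c ≠ 0 ∧ Polynomial.C c * G = g * k) ∨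
        (Polynomial.aeval θ G ≠ 0 ∧
          ∃ (c : R) (u v : Polynomial R), c ≠ 0 ∧ u * g + v * G = Polynomial.C c) := by
  have hinj : Function.Injective (algebraMap R K) := IsFractionRing.injective R K
  have hminj : Function.Injective (Polynomial.map (algebraMap R K)) :=
    Polynomial.map_injective _ hinj
  have hne : ∀ d : R, d ≠ 0 → algebraMap R K d ≠ 0 := fun d hd h =>
    hd (hinj (by rw [h, map_zero]))
  have hneΩ : ∀ d : R, d ≠ 0 → algebraMap R Ω d ≠ 0 := fun d hd h => by
    rw [IsScalarTower.algebraMap_apply R K Ω] at h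
    exact hne d hd ((map_eq_zero (algebraMap K Ω)).1 h)
  have hp0 : Polynomial.aeval θ (minpoly K θ) = 0 := minpoly.aeval K θ
  have hirr : Irreducible (minpoly K θ) := minpoly.irreducible hθ
  have hsep : (minpoly K θ).Separable := hirr.separable
  obtain ⟨c0, g, hc0, hg⟩ := clr (R := R) (minpoly K θ)
  have hq : ∀ i, ∃ (d : R) (P' : Polynomial R), d ≠ 0 ∧
      algebraMap R Ω d * x i = Polynomial.aeval θ P' := by
    intro i
    have h1 := hx i
    rw [Algebra.adjoin_singleton_eq_range_aeval] at h1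
    obtain ⟨q, hq⟩ := h1
    obtain ⟨d, P', hd, hP'⟩ := clr (R := R) q
    refine ⟨d, P', hd, ?_⟩
    rw [← ev_map (K := K), hP', map_mul, Polynomial.aeval_C, ← IsScalarTower.algebraMap_apply]
    congr 1
    exact hq.symm
  choose d P' hd hP' using hq
  refine ⟨g, ∏ i, d i, fun i => Polynomial.C (∏ j ∈ Finset.univ.erase i, d j) * P' i,
    Finset.prod_ne_zero_iff.2 fun i _ => hd i, ?_, ?_, ?_, ?_⟩
  · rw [← ev_map (K := K), hg, map_mul, hp0, mul_zero]
  · rw [← ev_map (K := K), ← Polynomial.derivative_map, hg, Polynomial.derivative_C_mul, map_mul,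
      Polynomial.aeval_C]
    refine mul_ne_zero ?_ (hsep.aeval_derivative_ne_zero hp0)
    rw [← IsScalarTower.algebraMap_apply]
    exact hneΩ c0 hc0
  · intro i
    rw [map_mul, Polynomial.aeval_C, ← hP' i, ← Finset.prod_erase_mul _ _ (Finset.mem_univ i),
      map_mul, mul_assoc]
  · intro G
    by_cases hG : Polynomial.aeval θ G = 0
    · left
      refine ⟨hG, ?_⟩
      rw [← ev_map (K := K)] at hG
      obtain ⟨k, hk⟩ := minpoly.dvd K θ hG
      obtain ⟨d', k', hd', hk'⟩ := clr (R := R) k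
      refine ⟨c0 * d', k', mul_ne_zero hc0 hd', hminj ?_⟩
      simp only [Polynomial.map_mul, Polynomial.map_C]
      rw [hg, hk', hk, map_mul, Polynomial.C_mul]
      ring
    · right
      refine ⟨hG, ?_⟩
      rw [← ev_map (K := K)] at hG
      have hcop : IsCoprime (minpoly K θ) (G.map (algebraMap R K)) := by
        refine (Irreducible.coprime_iff_not_dvd hirr).2 ?_
        rintro ⟨k, hk⟩
        apply hG
        rw [hk, map_mul, hp0, zero_mul]
      obtain ⟨u, v, huv⟩ := hcop
      obtain ⟨d1, U, hd1, hU⟩ := clr (R := R) u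
      obtain ⟨d2, V, hd2, hV⟩ := clr (R := R) v
      refine ⟨c0 * d1 * d2, Polynomial.C d2 * U, Polynomial.C (c0 * d1) * V,
        mul_ne_zero (mul_ne_zero hc0 hd1) hd2, hminj ?_⟩
      simp only [Polynomial.map_mul, Polynomial.map_add, Polynomial.map_C]
      rw [hg, hU, hV]
      simp only [map_mul]
      linear_combination (Polynomial.C (algebraMap R K c0) * Polynomial.C (algebraMap R K d1) *
        Polynomial.C (algebraMap R K d2)) * huv

end

/-- A primitive element which is a polynomial in the `x i`. -/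
theorem prim {K Ω : Type} [Field K] [CharZero K] [Field Ω] [Algebra K Ω] (m : ℕ) (x : Fin m → Ω)
    (hx : ∀ i, IsAlgebraic K (x i)) :
    ∃ α : Ω, α ∈ Algebra.adjoin K (Set.range x) ∧ IsIntegral K α ∧
      ∀ i, x i ∈ IntermediateField.adjoin K {α} := by
  have hfin : FiniteDimensional K (IntermediateField.adjoin K (Set.range x)) := by
    have : Finite (Set.range x) := Set.finite_range x
    refine IntermediateField.finiteDimensional_adjoin ?_
    rintro _ ⟨i, rfl⟩
    exact (hx i).isIntegral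
  obtain ⟨α, hα⟩ := Field.exists_primitive_element K (IntermediateField.adjoin K (Set.range x))
  refine ⟨α, ?_, ?_, fun i => ?_⟩
  · have h1 : (IntermediateField.adjoin K (Set.range x)).toSubalgebra =
        Algebra.adjoin K (Set.range x) := by
      refine IntermediateField.adjoin_toSubalgebra_of_isAlgebraic ?_
      rintro _ ⟨i, rfl⟩
      exact hx i
    rw [← h1]
    exact α.2
  · exact (IsIntegral.of_finite K α).map (IntermediateField.adjoin K (Set.range x)).val
  · have hi : x i ∈ IntermediateField.adjoin K (Set.range x) :=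
      IntermediateField.subset_adjoin K _ ⟨i, rfl⟩
    have h1 : (⟨x i, hi⟩ : IntermediateField.adjoin K (Set.range x)) ∈
        IntermediateField.adjoin K {α} := by
      rw [hα]
      trivial
    have h2 : x i ∈ (IntermediateField.adjoin K {α}).map
        (IntermediateField.adjoin K (Set.range x)).val := ⟨_, h1, rfl⟩
    rw [IntermediateField.adjoin_map, Set.image_singleton] at h2
    exact h2

end SPEAux

open SPEAux in
theorem pSPE : S_SPE := by
  intro Ω _ _ m r x b hind halg
  let φ : MvPolynomial (Fin r) ℚ →+* Ω :=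
    (aeval (x ∘ b) : MvPolynomial (Fin r) ℚ →ₐ[ℚ] Ω).toRingHom
  let _ : Algebra (MvPolynomial (Fin r) ℚ) Ω := φ.toAlgebra
  have hinj : Function.Injective (algebraMap (MvPolynomial (Fin r) ℚ) Ω) := hind
  have hfs : FaithfulSMul (MvPolynomial (Fin r) ℚ) Ω :=
    (faithfulSMul_iff_algebraMap_injective _ _).2 hinj
  let _ : Algebra (FractionRing (MvPolynomial (Fin r) ℚ)) Ω :=
    FractionRing.liftAlgebra (MvPolynomial (Fin r) ℚ) Ω
  have hst : IsScalarTower (MvPolynomial (Fin r) ℚ) (FractionRing (MvPolynomial (Fin r) ℚ)) Ω :=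
    FractionRing.isScalarTower_liftAlgebra (MvPolynomial (Fin r) ℚ) Ω
  have hcz : CharZero (FractionRing (MvPolynomial (Fin r) ℚ)) :=
    charZero_of_injective_algebraMap (algebraMap ℚ _).injective
  -- the elements `x i` are algebraic
  have halg1 : ∀ i, IsAlgebraic (FractionRing (MvPolynomial (Fin r) ℚ)) (x i) := by
    intro i
    rw [← IsFractionRing.isAlgebraic_iff (MvPolynomial (Fin r) ℚ)
      (FractionRing (MvPolynomial (Fin r) ℚ)) Ω]
    have h1 : IsAlgebraic (Algebra.adjoin ℚ (Set.range (x ∘ b))) (x i) := by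
      open scoped IntermediateField.algebraAdjoinAdjoin in
      exact (IsFractionRing.isAlgebraic_iff (Algebra.adjoin ℚ (Set.range (x ∘ b)))
        (IntermediateField.adjoin ℚ (Set.range (x ∘ b))) Ω).2 (halg i)
    have h2 := isAlgebraic_ringHom_iff_of_comp_eq (R := MvPolynomial (Fin r) ℚ)
      (S := Algebra.adjoin ℚ (Set.range (x ∘ b))) (A := Ω) (B := Ω)
      hind.aevalEquiv.toRingEquiv (RingHom.id Ω) Function.injective_id
      (RingHom.ext fun p => hind.algebraMap_aevalEquiv p) (a := x i)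
    exact h2.1 h1
  obtain ⟨α, hα1, hα2, hα3⟩ := prim m x halg1
  -- clear denominators
  have hclear : ∀ a ∈ Algebra.adjoin (FractionRing (MvPolynomial (Fin r) ℚ)) (Set.range x),
      ∃ (d : MvPolynomial (Fin r) ℚ) (Θ : MvPolynomial (Fin m) ℚ), d ≠ 0 ∧
        aeval (x ∘ b) d * a = aeval x Θ := by
    intro a ha
    have hren : ∀ p : MvPolynomial (Fin r) ℚ, aeval x (rename b p) = aeval (x ∘ b) p :=
      fun p => aeval_rename b x p
    induction ha using Algebra.adjoin_induction with
    | mem a ha =>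
      obtain ⟨i, rfl⟩ := ha
      exact ⟨1, X i, one_ne_zero, by rw [map_one, one_mul, aeval_X]⟩
    | algebraMap q =>
      obtain ⟨n, d, hd, rfl⟩ := IsFractionRing.div_surjective (A := MvPolynomial (Fin r) ℚ) q
      have hd0 : d ≠ 0 := nonZeroDivisors.ne_zero hd
      refine ⟨d, rename b n, hd0, ?_⟩
      rw [hren, map_div₀, ← IsScalarTower.algebraMap_apply, ← IsScalarTower.algebraMap_apply]
      have h3 : algebraMap (MvPolynomial (Fin r) ℚ) Ω d = aeval (x ∘ b) d := rfl
      have h4 : algebraMap (MvPolynomial (Fin r) ℚ) Ω n = aeval (x ∘ b) n := rfl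
      rw [h3, h4]
      refine mul_div_cancel₀ _ ?_
      rw [← h3]
      exact fun h => hd0 (hinj (by rw [h, map_zero]))
    | add a a' _ _ h h' =>
      obtain ⟨d, Θ, hd, hΘ⟩ := h
      obtain ⟨d', Θ', hd', hΘ'⟩ := h'
      refine ⟨d * d', Θ * rename b d' + Θ' * rename b d, mul_ne_zero hd hd', ?_⟩
      rw [map_add, map_mul, map_mul, map_mul, hren, hren, ← hΘ, ← hΘ']
      ring
    | mul a a' _ _ h h' =>
      obtain ⟨d, Θ, hd, hΘ⟩ := h
      obtain ⟨d', Θ', hd', hΘ'⟩ := h'
      refine ⟨d * d', Θ * Θ', mul_ne_zero hd hd', ?_⟩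
      rw [map_mul, map_mul, ← hΘ, ← hΘ']
      ring
  obtain ⟨δ1, Θ, hδ1, hΘ⟩ := hclear α hα1
  have hδ2 : aeval (x ∘ b) δ1 ≠ 0 := fun h => hδ1 (hinj (by
    rw [map_zero]
    exact h))
  -- `Θ(x)` is primitive
  have hK : algebraMap (FractionRing (MvPolynomial (Fin r) ℚ)) Ω
      (algebraMap (MvPolynomial (Fin r) ℚ) _ δ1) = aeval (x ∘ b) δ1 := by
    rw [← IsScalarTower.algebraMap_apply]
    rfl
  have hint : IsIntegral (FractionRing (MvPolynomial (Fin r) ℚ)) (aeval x Θ) := by
    rw [← hΘ, ← hK]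
    exact isIntegral_algebraMap.mul hα2
  have hαm : α ∈ IntermediateField.adjoin (FractionRing (MvPolynomial (Fin r) ℚ))
      {aeval x Θ} := by
    have h3 : α = (algebraMap (FractionRing (MvPolynomial (Fin r) ℚ)) Ω
        (algebraMap (MvPolynomial (Fin r) ℚ) _ δ1))⁻¹ * aeval x Θ := by
      rw [hK, ← hΘ, ← mul_assoc, inv_mul_cancel₀ hδ2, one_mul]
    rw [h3]
    exact mul_mem (inv_mem (IntermediateField.algebraMap_mem _ _))
      (IntermediateField.mem_adjoin_simple_self _ _)
  have hmem : ∀ i, x i ∈ Algebra.adjoin (FractionRing (MvPolynomial (Fin r) ℚ))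
      {aeval x Θ} := by
    intro i
    rw [← IntermediateField.adjoin_simple_toSubalgebra_of_isAlgebraic hint.isAlgebraic]
    have h3 : IntermediateField.adjoin (FractionRing (MvPolynomial (Fin r) ℚ)) {α} ≤
        IntermediateField.adjoin (FractionRing (MvPolynomial (Fin r) ℚ)) {aeval x Θ} := by
      rw [IntermediateField.adjoin_simple_le_iff]
      exact hαm
    exact h3 (hα3 i)
  obtain ⟨g, δ, h, h1, h2, h3, h4, h5⟩ := core (R := MvPolynomial (Fin r) ℚ)
    (K := FractionRing (MvPolynomial (Fin r) ℚ)) m x (aeval x Θ) hint hmem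
  exact ⟨Θ, g, δ, h, h1, h2, h3, h4, h5⟩

end Pool.Agent.SGA
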