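import Pool.Agent.Lib.MP_452a87_nt.SGA.Spec

/-!
# SGA/STr: transfer between `S` and the curve, complex coefficients
-/

set_option autoImplicit false

namespace Pool.Agent.SGA

open MvPolynomial Pool.Agent.SMQ Pool.Agent.SG

namespace STrAux

/-- The polynomial with the coefficients `ψ (coeff μ G)`. -/
noncomputable def gp {m : ℕ} (ψ : ℂ →ₗ[ℚ] ℚ) (G : MvPolynomial (Fin m) ℂ) : MvPolynomial (Fin m) ℚ :=
  ∑ μ ∈ G.support, monomial μ (ψ (coeff μ G))

theorem eval_gp {m : ℕ} (ψ : ℂ →ₗ[ℚ] ℚ) (G : MvPolynomial (Fin m) ℂ) (n : Fin m → ℚ) :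
    eval n (gp ψ G) = ψ (eval (fun i => ((n i : ℚ) : ℂ)) G) := by
  rw [MvPolynomial.eval_eq' (fun i => ((n i : ℚ) : ℂ)) G, gp, map_sum, map_sum]
  refine Finset.sum_congr rfl fun μ _ => ?_
  rw [eval_monomial, Finsupp.prod_fintype _ _ (fun i => pow_zero _)]
  have h : coeff μ G * ∏ i, ((n i : ℚ) : ℂ) ^ μ i = (∏ i, n i ^ μ i) • coeff μ G := by
    rw [Rat.smul_def]; push_cast; ring
  rw [h, map_smul, smul_eq_mul, mul_comm]

theorem coeff_gp {m : ℕ} (ψ : ℂ →ₗ[ℚ] ℚ) (G : MvPolynomial (Fin m) ℂ) (γ : Fin m → PowerSeries ℚ) (ν : ℕ) :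
    PowerSeries.coeff ν (aeval γ (gp ψ G)) = ψ (PowerSeries.coeff ν (aeval (gC γ) G)) := by
  have h1 : aeval (gC γ) G = ∑ μ ∈ G.support, PowerSeries.C (coeff μ G) * PowerSeries.map (algebraMap ℚ ℂ) (∏ i, γ i ^ μ i) := by
    rw [aeval_def, eval₂_eq']
    refine Finset.sum_congr rfl fun μ _ => ?_
    rw [map_prod]
    simp only [map_pow, gC]
    rfl
  rw [h1, gp, map_sum, map_sum, map_sum, map_sum]
  refine Finset.sum_congr rfl fun μ _ => ?_
  rw [aeval_monomial, Finsupp.prod_fintype _ _ (fun i => pow_zero _)]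
  have h2 : (algebraMap ℚ (PowerSeries ℚ)) (ψ (coeff μ G)) = PowerSeries.C (ψ (coeff μ G)) := rfl
  rw [h2, PowerSeries.coeff_C_mul, PowerSeries.coeff_C_mul, PowerSeries.coeff_map]
  have h : coeff μ G * (algebraMap ℚ ℂ) (PowerSeries.coeff ν (∏ i, γ i ^ μ i)) = (PowerSeries.coeff ν (∏ i, γ i ^ μ i)) • coeff μ G := by
    rw [Algebra.smul_def, mul_comm]
  rw [h, map_smul, smul_eq_mul, mul_comm]

theorem eq_zero_of_dual (z : ℂ) (h : ∀ ψ : ℂ →ₗ[ℚ] ℚ, ψ z = 0) : z = 0 :=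
  (Module.forall_dual_apply_eq_zero_iff ℚ z).1 h

end STrAux

open STrAux in
theorem pSTr : S_STr := by
  intro m S n0 γ hγ G
  constructor
  · intro h
    ext ν
    rw [map_zero]
    refine eq_zero_of_dual _ fun ψ => ?_
    have hv : Van S (gp ψ G) := by
      intro n hn
      rw [eval_gp, h n hn, map_zero]
    rw [← coeff_gp, (hγ.2 _).2 hv, map_zero]
  · intro h n hn
    refine eq_zero_of_dual _ fun ψ => ?_
    rw [← eval_gp]
    refine (hγ.2 (gp ψ G)).1 ?_ n hn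
    ext ν
    rw [coeff_gp, h, map_zero, map_zero, map_zero]

end Pool.Agent.SGA
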