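import Pool.Agent.Lib.MP_452a87_nt.SGA.Spec

/-!
# Theorem SGA, module STy: the Taylor coefficients of the kernel along a curve
-/

set_option autoImplicit false

namespace Pool.Agent.SGA

open MvPolynomial Pool.Agent.SMQ Pool.Agent.SG

namespace STyAux

/-- One step. -/
theorem step (hCm : S_ACm) (hD1 : S_AD1) (hdl : S_Adl) (B E : IntermediateField ℚ ℂ) (hE : Cl E)
    (hBE : B ≤ E) (s : ℕ) (Dl : Fin s → Derivation ℚ ℂ ℂ) (u : Fin s → ℂ)
    (hDl : ∀ a, Dl a ∈ DB B) (hu : ∀ j, Complex.exp (u j) ∈ E) (hdet : (dm Dl u).det ≠ 0)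
    (κ : Type) [Fintype κ] (c y : κ → ℂ) (x : Fin s → ℂ) (hc : ∀ k, c k ∈ E)
    (h : ∀ D ∈ DB B, ∑ j, x j * dl D (u j) = ∑ k, c k * dl D (y k)) : ∀ j, x j ∈ E := by
  have hle : ∀ D ∈ DB E, D ∈ DB B := fun D hD b hb => hD b (hBE hb)
  have hzu : ∀ D ∈ DB E, ∀ j, dl D (u j) = 0 := fun D hD j => hdl.2.2.2.2.1 E D hD (u j) (hu j)
  have hz : ∀ D ∈ DB E, ∑ k, c k * dl D (y k) = 0 := by
    intro D hD
    rw [← h D (hle D hD)]
    exact Finset.sum_eq_zero fun j _ => by rw [hzu D hD j, mul_zero]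
  have h1 := hCm B E hE hBE κ c y hc hz
  have h2 : ∀ j, ∀ D ∈ DB E, ∀ D' ∈ DB B, D (dl D' (u j)) = dl ⁅D, D'⁆ (u j) := by
    intro j D hD D' hD'
    have h3 := (hCm B E hE hBE Unit (fun _ => 1) (fun _ => u j) (fun _ => one_mem E)
      (fun D hD => by simp [hzu D hD j]) D hD D' hD').2
    simpa using h3
  have key : ∀ D ∈ DB E, ∀ j, D (x j) = 0 := by
    intro D hD
    have h4 : (dm Dl u).mulVec (fun j => D (x j)) = 0 := by
      funext a
      have h5 := congrArg D (h (Dl a) (hDl a))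
      obtain ⟨h6, h7⟩ := h1 D hD (Dl a) (hDl a)
      rw [h7, ← h _ h6, map_sum] at h5
      have h8 : ∀ j, D (x j * dl (Dl a) (u j)) =
          x j * dl ⁅D, Dl a⁆ (u j) + dl (Dl a) (u j) * D (x j) := by
        intro j
        rw [Derivation.leibniz, h2 j D hD (Dl a) (hDl a), smul_eq_mul, smul_eq_mul]
      simp only [h8, Finset.sum_add_distrib] at h5
      have h9 : ∑ j, dl (Dl a) (u j) * D (x j) = 0 := by
        linear_combination h5
      exact h9
    have h5 := Matrix.eq_zero_of_mulVec_eq_zero hdet h4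
    intro j
    exact congrFun h5 j
  exact fun j => hD1 E hE (x j) fun D hD => key D hD j

end STyAux

theorem pSTy : S_ACm → S_AD1 → S_Adl → S_STy := by
  intro hCm hD1 hdl B E hE hBE s Dl u u0 ρ hDl hu hu0 hdet heq ν
  have hst := fun (κ : Type) [Fintype κ] (c y : κ → ℂ) (x : Fin s → ℂ) =>
    STyAux.step hCm hD1 hdl B E hE hBE s Dl (u 0) hDl hu hdet κ c y x
  induction ν using Nat.strong_induction_on with
  | _ ν ih =>
    refine hst (Option (Fin ν × Fin s)) (fun k => k.elim 1 fun p => -ρ p.1 p.2)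
      (fun k => k.elim (u0 ν) fun p => u (ν - p.1) p.2) (ρ ν) ?_ fun D hD => ?_
    · rintro (_ | p)
      · exact one_mem E
      · exact neg_mem (ih p.1 p.1.2 p.2)
    · rw [Fintype.sum_option, Fintype.sum_prod_type]
      simp only [Option.elim_none, Option.elim_some, one_mul, neg_mul, Finset.sum_neg_distrib]
      have h1 := heq ν D hD
      rw [Finset.Nat.sum_antidiagonal_eq_sum_range_succ
        (fun a b => ∑ j, ρ a j * dl D (u b j)) ν, Finset.sum_range_succ, Nat.sub_self,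
        Finset.sum_range] at h1
      rw [h1]
      ring

end Pool.Agent.SGA
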