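import Pool.Agent.Lib.MP_452a87_nt.SG.All
import Pool.Agent.Lib.MP_452a87_nt.SGA.SAi
import Pool.Agent.Lib.MP_452a87_nt.SGA.SCt
import Pool.Agent.Lib.MP_452a87_nt.SGA.SCu
import Pool.Agent.Lib.MP_452a87_nt.SGA.SFn
import Pool.Agent.Lib.MP_452a87_nt.SGA.SGp
import Pool.Agent.Lib.MP_452a87_nt.SGA.SHo
import Pool.Agent.Lib.MP_452a87_nt.SGA.SHs
import Pool.Agent.Lib.MP_452a87_nt.SGA.SKD
import Pool.Agent.Lib.MP_452a87_nt.SGA.SLa
import Pool.Agent.Lib.MP_452a87_nt.SGA.SMb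
import Pool.Agent.Lib.MP_452a87_nt.SGA.SMn
import Pool.Agent.Lib.MP_452a87_nt.SGA.SMr
import Pool.Agent.Lib.MP_452a87_nt.SGA.SMt
import Pool.Agent.Lib.MP_452a87_nt.SGA.SMx
import Pool.Agent.Lib.MP_452a87_nt.SGA.SNo
import Pool.Agent.Lib.MP_452a87_nt.SGA.SNz
import Pool.Agent.Lib.MP_452a87_nt.SGA.SPE
import Pool.Agent.Lib.MP_452a87_nt.SGA.STr
import Pool.Agent.Lib.MP_452a87_nt.SGA.STy

/-!
# Theorem SGA: assembly
-/

set_option autoImplicit false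

namespace Pool.Agent.SGA.All

open Pool.Agent.SG Pool.Agent.SGA

theorem aSMb : S_SMb := pSMb Pool.Agent.SG.All.aATc Pool.Agent.SG.All.aAcl
theorem aSMx : S_SMx := pSMx Pool.Agent.SG.All.aALf Pool.Agent.SG.All.aAdl
theorem aSTy : S_STy := pSTy Pool.Agent.SG.All.aACm Pool.Agent.SG.All.aAD1 Pool.Agent.SG.All.aAdl
theorem aSTr : S_STr := pSTr
theorem aSKD : S_SKD := pSKD aSTy aSTr Pool.Agent.SG.All.aAD1 Pool.Agent.SG.All.aAdl
theorem aSNz : S_SNz := pSNz Pool.Agent.SG.All.aAdl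
theorem aSMr : S_SMr := pSMr aSKD aSNz Pool.Agent.SG.All.aAcl Pool.Agent.SG.All.aAdl
theorem aSLa : S_SLa := pSLa
theorem aSMt : S_SMt := pSMt Pool.Agent.SG.All.aTTH Pool.Agent.SG.All.aATc Pool.Agent.SG.All.aAEx Pool.Agent.SG.All.aAcl
theorem aSPE : S_SPE := pSPE
theorem aSHo : S_SHo := pSHo
theorem aSHs : S_SHs := pSHs
theorem aSAi : S_SAi := pSAi
theorem aSCu : S_SCu := pSCu aSPE aSHo aSHs aSAi
theorem aSMn : S_SMn := pSMn aSMb aSMx aSMr Pool.Agent.SG.All.aAVn aSNz aSLa aSMt aSCu Pool.Agent.SG.All.aAIn Pool.Agent.SG.All.aATc Pool.Agent.SG.All.aAcl Pool.Agent.SG.All.aAEx Pool.Agent.SG.All.aAdl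
theorem aSGp : S_SGp := pSGp
theorem aSCt : S_SCt := pSCt
theorem aSNo : S_SNo := pSNo aSGp aSCt Pool.Agent.SG.All.aTrE
theorem aSFn : S_SFn := pSFn Pool.Agent.SG.All.aBBa Pool.Agent.SG.All.aBVf aSMn aSNo Pool.Agent.SG.All.aAEx Pool.Agent.SG.All.aAcl

end Pool.Agent.SGA.All
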