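import Pool.Agent.Lib.MP_452a87_nt.SG.SpecB

/-!
# Theorem SGA: the exceptional logarithms have bounded dimension

`F` a number field of degree `d = e + 1`, `L_1, …, L_m` linearly independent logarithms of algebraic numbers, `m` arbitrary. SFn: the number of the `n ∈ ℤ^m`, `|n_i| ≤ H`, such that `∑ n_i L_i` is not good for `F` is at most `C H^(6 d² - 1)`, an exponent which does not depend on `m`.
The task `X` is to write `SGA/X.lean` with `theorem pX (h1 : S_..) ... : S_X`; statements used are hypotheses, so all modules are independent. Definitions and statements `S_A..`, `S_T..`, `S_BVf`, `S_BBa` are those of `SG/SpecA.lean`, `SG/SpecB.lean`, `SG/SpecT.lean` (namespace `Pool.Agent.SG`), `Tr`, `S_TrE` those of `Defs.lean`, `SpecR.lean` (namespace `Pool.Agent.SMQ`).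
Several modules are ADAPTATIONS of proved modules: STy of SG/ATy, SKD of SG/AKD, SMx of SG/AMx, SNz of SG/ANz, SMb of SG/AMb, SMr of SG/AMr, SLa of SG/ALa, SMt of SG/AMt, SMn of SG/AMn. Start from a copy.

Idea. Let `S ⊆ ℚ^m` be a set of bad `n` such that the polynomials vanishing on `S` form a prime ideal (`Ird S`), of dimension `r`. Everything in Part A of Theorem SG works for `n ∈ S` (`P ≠ 0` becomes `¬ Van S P`): only the pencil `n + c n'` is replaced by a formal curve `γ ∈ ℚ⟦t⟧^m` through a point `n0 ∈ S`, such that the polynomials vanishing on `γ` are exactly those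
vanishing on `S` (`Crv S n0 γ`; SCu: primitive element, Hensel, algebraically independent power series). Taylor expansion along `γ` shows that the kernel is defined over `E_(n0)` (STy, SKD); the tangent vectors of such curves give the linear algebra (SLa). So `r < 6 (e+1)²` (SMn). Noetherian induction gives the count (SNo, SCt).
-/

set_option autoImplicit false

namespace Pool.Agent.SGA

open MvPolynomial Pool.Agent.SMQ Pool.Agent.SG

/-- `P` vanishes on `S`. -/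
def Van {m : ℕ} (S : Set (Fin m → ℚ)) (P : MvPolynomial (Fin m) ℚ) : Prop := ∀ n ∈ S, eval n P = 0

/-- `S` is not empty and the ideal of the polynomials vanishing on `S` is prime. -/
def Ird {m : ℕ} (S : Set (Fin m → ℚ)) : Prop := S.Nonempty ∧ ∀ P Q : MvPolynomial (Fin m) ℚ, Van S (P * Q) → Van S P ∨ Van S Q

/-- `x` is a generic point of `S`. -/
def Gp {m : ℕ} {Ω : Type} [Field Ω] [CharZero Ω] (S : Set (Fin m → ℚ)) (x : Fin m → Ω) : Prop :=
  ∀ P : MvPolynomial (Fin m) ℚ, aeval x P = 0 ↔ Van S P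

/-- `γ` is a formal curve through `n0`; exactly the polynomials vanishing on `S` vanish on `γ`. -/
def Crv {m : ℕ} (S : Set (Fin m → ℚ)) (n0 : Fin m → ℚ) (γ : Fin m → PowerSeries ℚ) : Prop :=
  (∀ i, PowerSeries.constantCoeff (γ i) = n0 i) ∧ ∀ P : MvPolynomial (Fin m) ℚ, aeval γ P = 0 ↔ Van S P

/-- The curve `γ` over `ℂ`. -/
noncomputable def gC {m : ℕ} (γ : Fin m → PowerSeries ℚ) (i : Fin m) : PowerSeries ℂ := PowerSeries.map (algebraMap ℚ ℂ) (γ i)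

/-! ### Formal curves -/

/-- (STr, 80 lines) Transfer between `S` and the curve, complex coefficients.
PROOF. For a `ℚ`-linear map `ψ : ℂ → ℚ` let `G_ψ` be the polynomial with the coefficients `ψ (coeff μ G)`. For rational `n`: `eval n G_ψ = ψ (G(n))`; and `coeff ν (aeval γ G_ψ) = ψ (coeff ν (aeval (gC γ) G))` since the monomials `γ^μ` have rational coefficients (`PowerSeries.coeff_map`). If `G` vanishes on `S` then `Van S G_ψ` for all `ψ`, so `aeval γ G_ψ = 0`, all coefficients of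
`aeval (gC γ) G` are killed by all `ψ`, so they are `0` (a nonzero complex number is not killed by some `ψ`: basis extension, `Module.exists_dual_forall_apply_ne_zero`-type or `Submodule.exists_dual..`). Conversely if `aeval (gC γ) G = 0` then `aeval γ G_ψ = 0`, `Van S G_ψ`, so `ψ (G(n)) = 0` for all `ψ`. -/
def S_STr : Prop :=
  ∀ (m : ℕ) (S : Set (Fin m → ℚ)) (n0 : Fin m → ℚ) (γ : Fin m → PowerSeries ℚ), Crv S n0 γ → ∀ G : MvPolynomial (Fin m) ℂ,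
    (∀ n ∈ S, eval (fun i => ((n i : ℚ) : ℂ)) G = 0) ↔ aeval (gC γ) G = 0

/-- (SHs, 200 lines) Hensel for power series over `ℚ`.
PROOF. Write `t` for the variable. Construct `ϑ` coefficient by coefficient: CLAIM: for every `N` there is a polynomial `ϑ_N` (a power series) with constant coefficient `θ0`, `ϑ_(N+1) - ϑ_N ∈ (t^(N+1))`, `g(ϑ_N) ∈ (t^(N+1))`. Start: `ϑ_0 = θ0` (the constant coefficient of `g(θ0)` is the value of the reduced polynomial). Step: `ϑ_(N+1) = ϑ_N + c t^(N+1)`, `c ∈ ℚ`: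
`g(ϑ_N + c t^(N+1)) = g(ϑ_N) + c t^(N+1) g'(ϑ_N) + t^(2N+2)(…)` (`Polynomial.binomExpansion`), the coefficient of `t^(N+1)` is `coeff (N+1) (g(ϑ_N)) + c g'(ϑ_N)(0)`, and `g'(ϑ_N)(0) = (reduced g)'(θ0) ≠ 0`: choose `c`. Let `ϑ = mk (fun N => coeff N ϑ_N)`; `ϑ - ϑ_N ∈ (t^(N+1))`, so `g(ϑ) ∈ (t^(N+1))` for all `N` (`Polynomial.sub_dvd_eval_sub`): `g(ϑ) = 0`.
(Or: `PowerSeries` is adically complete, Newton; any way.) -/
def S_SHs : Prop :=
  ∀ (g : Polynomial (PowerSeries ℚ)) (θ0 : ℚ), (g.map PowerSeries.constantCoeff).eval θ0 = 0 →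
    (g.map PowerSeries.constantCoeff).derivative.eval θ0 ≠ 0 → ∃ ϑ : PowerSeries ℚ, PowerSeries.constantCoeff ϑ = θ0 ∧ g.eval ϑ = 0

/-- (SAi, 150 lines) Algebraically independent power series with given beginnings.
PROOF. Induction on `r`. Let `a_1, …, a_r` be chosen. `A = Algebra.adjoin ℚ (range a)` is countable, so the set of the elements of `ℚ⟦t⟧` which are algebraic over `A` is countable (countably many nonzero polynomials, finitely many roots each in the domain `ℚ⟦t⟧`; `Algebraic.countable`-type lemmas). The set of the power series with constant coefficient `c` and first coefficient `w` is not countable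
(it contains the injective image of `ℕ → Bool` or `Set ℕ`, `A ↦ c + w t + ∑_(k∈A) t^(k+2)`; Cantor). So some `a_(r+1)` in it is transcendental over `A`; then `a_1, …, a_(r+1)` is algebraically independent (`AlgebraicIndependent.option_iff`, `algebraicIndependent_fin_succ`-type lemmas; reindex `Fin (r+1) ≃ Option (Fin r)`). -/
def S_SAi : Prop :=
  ∀ (r : ℕ) (c w : Fin r → ℚ), ∃ a : Fin r → PowerSeries ℚ,
    (∀ i, PowerSeries.constantCoeff (a i) = c i ∧ PowerSeries.coeff 1 (a i) = w i) ∧ AlgebraicIndependent ℚ a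

/-- (SPE, 300 lines) Primitive element with polynomials. `ev G = G(y, θ)`, `y = x ∘ b`, `θ = Θ(x)`.
PROOF. `k = IntermediateField.adjoin ℚ (range y) ⊆ Ω`, `Lf = k(x_1, …, x_m)`: finite over `k` (finitely many algebraic generators), separable (characteristic `0`); primitive element `θ1 ∈ Lf`, `Lf = k(θ1)` (`Field.exists_primitive_element`). `Lf = k[x_1, …, x_m]` (algebraic), and every element of `k` is a quotient of elements of `ℚ[y]`
(`IntermediateField.mem_adjoin_range_iff`), so there is `δ1 ∈ ℚ[Y]`, `δ1(y) ≠ 0`, with `δ1(y) θ1 = Θ(x)`, `Θ ∈ ℚ[X]`. `θ = Θ(x)` is also primitive. `p` = the minimal polynomial of `θ` over `k`; clear denominators: `g ∈ ℚ[Y][Z]` whose image in `k[Z]` is `c0 p`, `c0 ≠ 0`. `ev g = 0`, `ev g' ≠ 0` (`p` is separable). `x i ∈ k[θ]`: clear denominators: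
`δ(y) x i = h_i(y, θ)` with a common `δ ≠ 0`. The map `ℚ[Y] → k`, `Y ↦ y`, is injective (algebraic independence), so `ℚ[Y][Z] → k[Z]` is injective. Let `G ∈ ℚ[Y][Z]` with image `Ḡ`. If `ev G = 0` then `p ∣ Ḡ`, `Ḡ = ḡ K̄`, `K̄ ∈ k[Z]`; clear denominators: `c G = g K` in `ℚ[Y][Z]`. If `ev G ≠ 0` then `p` (irreducible) and `Ḡ` are coprime in `k[Z]`:
`ū ḡ + v̄ Ḡ = 1`; clear denominators: `u g + v G = c`. -/
def S_SPE : Prop :=
  ∀ (Ω : Type) [Field Ω] [CharZero Ω] (m r : ℕ) (x : Fin m → Ω) (b : Fin r → Fin m), AlgebraicIndependent ℚ (x ∘ b) →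
    (∀ i, IsAlgebraic (IntermediateField.adjoin ℚ (Set.range (x ∘ b))) (x i)) →
    ∃ (Θ : MvPolynomial (Fin m) ℚ) (g : Polynomial (MvPolynomial (Fin r) ℚ)) (δ : MvPolynomial (Fin r) ℚ)
      (h : Fin m → Polynomial (MvPolynomial (Fin r) ℚ)), δ ≠ 0 ∧
      Polynomial.eval₂ (aeval (x ∘ b) : MvPolynomial (Fin r) ℚ →ₐ[ℚ] Ω).toRingHom (aeval x Θ) g = 0 ∧
      Polynomial.eval₂ (aeval (x ∘ b) : MvPolynomial (Fin r) ℚ →ₐ[ℚ] Ω).toRingHom (aeval x Θ) g.derivative ≠ 0 ∧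
      (∀ i, aeval (x ∘ b) δ * x i = Polynomial.eval₂ (aeval (x ∘ b) : MvPolynomial (Fin r) ℚ →ₐ[ℚ] Ω).toRingHom (aeval x Θ) (h i)) ∧
      ∀ G : Polynomial (MvPolynomial (Fin r) ℚ),
        (Polynomial.eval₂ (aeval (x ∘ b) : MvPolynomial (Fin r) ℚ →ₐ[ℚ] Ω).toRingHom (aeval x Θ) G = 0 ∧
          ∃ (c : MvPolynomial (Fin r) ℚ) (K : Polynomial (MvPolynomial (Fin r) ℚ)), c ≠ 0 ∧ Polynomial.C c * G = g * K) ∨
        (Polynomial.eval₂ (aeval (x ∘ b) : MvPolynomial (Fin r) ℚ →ₐ[ℚ] Ω).toRingHom (aeval x Θ) G ≠ 0 ∧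
          ∃ (c : MvPolynomial (Fin r) ℚ) (u v : Polynomial (MvPolynomial (Fin r) ℚ)), c ≠ 0 ∧ u * g + v * G = Polynomial.C c)

/-- (SHo, 100 lines) Clearing the denominator `δ`.
PROOF. Induction on `P` (`MvPolynomial.induction_on`): for constants `N = 0`, `G = C (C c)`. Sum: multiply by powers of `δ` to have the same `N`. Product with `X i`: `N + 1`, `G * h i`. -/
def S_SHo : Prop :=
  ∀ (m r : ℕ) (δ : MvPolynomial (Fin r) ℚ) (h : Fin m → Polynomial (MvPolynomial (Fin r) ℚ)) (P : MvPolynomial (Fin m) ℚ),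
    ∃ (N : ℕ) (G : Polynomial (MvPolynomial (Fin r) ℚ)), ∀ (A : Type) [CommRing A] [Algebra ℚ A] (a : Fin r → A) (θ : A) (ξ : Fin m → A),
      (∀ i, aeval a δ * ξ i = Polynomial.eval₂ (aeval a : MvPolynomial (Fin r) ℚ →ₐ[ℚ] A).toRingHom θ (h i)) →
      aeval a δ ^ N * aeval ξ P = Polynomial.eval₂ (aeval a : MvPolynomial (Fin r) ℚ →ₐ[ℚ] A).toRingHom θ G

/-- (SCu, 300 lines, uses SPE, SHo, SHs, SAi) FORMAL CURVES through the points of `S`.
PROOF. SPE: `Θ, g, δ, h`. `f = rename b δ * (g'(X_b, Θ))` where `g'(X_b, Θ) = Polynomial.eval₂ (rename b).toRingHom Θ g.derivative ∈ ℚ[X]`: `aeval x f = δ(y) · ev g' ≠ 0` (`δ(y) ≠ 0` by independence), so `¬ Van S f` (Gp). Let `n0 ∈ S`, `f(n0) ≠ 0`, `c i = n0 (b i)`, `θ0 = Θ(n0)`. The polynomials `g(X_b, Θ)` and `rename b δ * X i - h_i(X_b, Θ)` vanish at `x`, so on `S`, so at `n0`: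
`g(c, θ0) = 0`, `δ(c) n0_i = h_i(c, θ0)`, and `δ(c) ≠ 0`, `g'(c, θ0) ≠ 0`. SAi with `c, w`: `a`. SHs for `g` with its coefficients mapped by `aeval a` (constant coefficients: `aeval c`, as `constantCoeff ∘ aeval a = aeval c`): `ϑ` with `g(a, ϑ) = 0`, `ϑ(0) = θ0`. `δ(a)` has constant coefficient `δ(c) ≠ 0`, a unit; `γ i = h_i(a, ϑ) δ(a)⁻¹`, constant coefficient
`h_i(c, θ0)/δ(c) = n0 i`. KERNEL: let `P ∈ ℚ[X]`, SHo: `N, G`: `δ(y)^N P(x) = G(y, θ)` and `δ(a)^N P(γ) = G(a, ϑ)`, so `P(x) = 0 ↔ G(y, θ) = 0` and `P(γ) = 0 ↔ G(a, ϑ) = 0`. By the dichotomy: if `G(y, θ) = 0` then `c1 G = g K`, `c1(a) G(a, ϑ) = 0`, `c1(a) ≠ 0` (`a` independent; domain): `G(a, ϑ) = 0`. If `G(y, θ) ≠ 0` then `u g + v G = c1`, so `v(a,ϑ) G(a, ϑ) = c1(a) ≠ 0`,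
`G(a, ϑ) ≠ 0`. So `aeval γ P = 0 ↔ aeval x P = 0 ↔ Van S P`. FIRST COEFFICIENTS: `G = C (δ * X j) - h_(b j)` satisfies `G(y, θ) = 0`, so `G(a, ϑ) = 0` (first case), i.e. `δ(a) a_j = h_(b j)(a, ϑ) = δ(a) γ_(b j)`: `γ (b j) = a_j`, with first coefficient `w j`. -/
def S_SCu : Prop :=
  ∀ (m r : ℕ) (S : Set (Fin m → ℚ)) (Ω : Type) [Field Ω] [CharZero Ω] (x : Fin m → Ω) (b : Fin r → Fin m), Gp S x → AlgebraicIndependent ℚ (x ∘ b) →
    (∀ i, IsAlgebraic (IntermediateField.adjoin ℚ (Set.range (x ∘ b))) (x i)) →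
    ∃ f : MvPolynomial (Fin m) ℚ, ¬ Van S f ∧ ∀ n0 ∈ S, eval n0 f ≠ 0 → ∀ w : Fin r → ℚ, ∃ γ : Fin m → PowerSeries ℚ,
      Crv S n0 γ ∧ ∀ i, PowerSeries.coeff 1 (γ (b i)) = w i

/-! ### The kernel along a curve -/

/-- (STy, 200 lines, uses ACm, AD1, Adl; adaptation of SG/ATy) TAYLOR COEFFICIENTS along a curve.
PROOF. Strong induction on `ν`. The equation number `ν` has the form `∑_j ρ ν j dl D' (u 0 j) = φ_ν(D')` for all `D' ∈ DB B`, `φ_ν(D') = dl D' (u0 ν) - ∑_(a+b=ν, a<ν) ∑_j ρ a j dl D' (u b j)`, an expression `∑_k c k dl D' (y k)` (`κ = Option (Fin ν × Fin s)` or similar) with coefficients `c k ∈ E` (induction). Let `D ∈ DB E` (`⊆ DB B`).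
The left side at `D` is `0` as `exp (u 0 j) ∈ E` (Adl), so `φ_ν(D) = 0`: hypothesis of ACm for `φ_ν`. Hence `D (φ_ν(D')) = φ_ν(⁅D, D'⁆)`; also `D (dl D' (u 0 j)) = dl ⁅D, D'⁆ (u 0 j)` (ACm for the single term `1 · dl D' (u 0 j)`, zero for `D ∈ DB E`). Apply `D` to the equation at `D'` and subtract the equation at `⁅D, D'⁆ ∈ DB B`: `∑_j D (ρ ν j) dl D' (u 0 j) = 0` for all `D' ∈ DB B`;
with `D' = Dl a`: the matrix `dm Dl (u 0)` is invertible, so `D (ρ ν j) = 0`. This for all `D ∈ DB E`: `ρ ν j ∈ E` (AD1). (`exp (u0 0) ∈ E` is used only implicitly; it may be unused.) -/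
def S_STy : Prop :=
  ∀ (B E : IntermediateField ℚ ℂ), Cl E → B ≤ E → ∀ (s : ℕ) (Dl : Fin s → Derivation ℚ ℂ ℂ) (u : ℕ → Fin s → ℂ) (u0 : ℕ → ℂ) (ρ : ℕ → Fin s → ℂ),
    (∀ a, Dl a ∈ DB B) → (∀ j, Complex.exp (u 0 j) ∈ E) → Complex.exp (u0 0) ∈ E → (dm Dl (u 0)).det ≠ 0 →
    (∀ ν : ℕ, ∀ D ∈ DB B, dl D (u0 ν) = ∑ p ∈ Finset.HasAntidiagonal.antidiagonal ν, ∑ j, ρ p.1 j * dl D (u p.2 j)) →
    ∀ ν j, ρ ν j ∈ E

/-- (SKD, 350 lines, uses STy, STr, AD1, Adl; adaptation of SG/AKD) KEY LEMMA: the kernel at `n'` is defined over the field `E` belonging to `n0`.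
PROOF. Polynomials over `ℂ` in `X_1, …, X_m`: for `D' : Derivation` and a number `z` let `ℓ(D', z) = ∑_i C (dl D' (z * L i)) X_i`; for rational `n`: `ℓ(D', z)(n) = dl D' (z * lq L n)` (Adl). `A a j = ℓ(Dl a, w j)`, `b a = ℓ(Dl a, w0)`, `Q = det A`, `P = cramer A b`: `A P = Q b`; `Q(n) = det (dm Dl (w j lq L n))`. Let `D' ∈ DB B`, `W j = ℓ(D', w j)`, `d = ℓ(D', w0)`,
`H = Q d - ∑ W j P j`. CLAIM `Q H` vanishes on `S`: for `n ∈ S` with `Q(n) ≠ 0` let `r` be as in the hypothesis; for `D' = Dl a`: `A(n) r = b(n)`, so `Q(n) r = adj(A(n)) A(n) r = P(n)`; then for `D'`: `Q(n) d(n) = ∑ W j (n) Q(n) r j = ∑ W j (n) P j (n)`. Apply STr: `aeval (gC γ) (Q H) = 0`; `aeval (gC γ) Q` has constant coefficient `Q(n0) ≠ 0`, so it is not zero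
and it is a unit of `ℂ⟦t⟧`; so `aeval (gC γ) H = 0`. Let `ρ j = aeval (gC γ) (P j) · (aeval (gC γ) Q)⁻¹`; then `aeval (gC γ) d = ∑_j aeval (gC γ) (W j) ρ j`. The coefficient `ν` of `aeval (gC γ) ℓ(D', z) = ∑_i dl D' (z L i) γ_i` is `dl D' (z * lq L (γ^(ν)))`, `γ^(ν) i = coeff ν (γ i) ∈ ℚ` (Adl). So the coefficients satisfy the hypotheses of STy with
`u ν j = w j * lq L γ^(ν)`, `u0 ν = w0 * lq L γ^(ν)`, `ρ ν j = coeff ν (ρ j)` (`γ^(0) = n0`; `PowerSeries.coeff_mul`, order of the factors). STy: all `coeff ν (ρ j) ∈ E`. Let `D ∈ DB E` and let `δ` = `D` applied to the coefficients of polynomials and of power series; `δ (aeval (gC γ) G) = aeval (gC γ) (δ G)` for polynomials `G` (the coefficients of the `γ^μ` are rational, `D` is zero on `ℚ`).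
From `Q̂ ρ j = P̂ j` and `D (coeff (ρ j)) = 0`: `δ(Q̂) ρ j = δ(P̂ j)`, so `δ(Q̂) P̂ j = δ(P̂ j) Q̂`, i.e. `aeval (gC γ) (δQ · P j - δ(P j) · Q) = 0`. By STr this polynomial vanishes on `S`, at `n'`: `δQ(n') = D(Q(n'))` (rational point), so `D(Q(n')) P j (n') = D(P j (n')) Q(n')`, `D (P j (n')/Q(n')) = 0`. For all `D ∈ DB E`: `P j (n')/Q(n') ∈ E` (AD1). Finally for `r` as in
the conclusion: `D' = Dl a` gives `A(n') r = b(n')`, so `r j = P j (n')/Q(n')`. -/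
def S_SKD : Prop :=
  ∀ (B E : IntermediateField ℚ ℂ), Cl E → B ≤ E → ∀ (m s : ℕ) (S : Set (Fin m → ℚ)) (L : Fin m → ℂ) (w : Fin s → ℂ) (w0 : ℂ)
    (Dl : Fin s → Derivation ℚ ℂ ℂ) (n0 : Fin m → ℚ) (γ : Fin m → PowerSeries ℚ),
    (∀ a, Dl a ∈ DB B) → n0 ∈ S → Crv S n0 γ → (∀ j, Complex.exp (w j * lq L n0) ∈ E) → Complex.exp (w0 * lq L n0) ∈ E →
    (dm Dl (fun j => w j * lq L n0)).det ≠ 0 →
    (∀ n ∈ S, (dm Dl (fun j => w j * lq L n)).det ≠ 0 → ∃ r : Fin s → ℂ, ∀ D ∈ DB B, dl D (w0 * lq L n) = ∑ j, r j * dl D (w j * lq L n)) →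
    ∀ n' ∈ S, (dm Dl (fun j => w j * lq L n')).det ≠ 0 → ∀ r : Fin s → ℂ,
      (∀ D ∈ DB B, dl D (w0 * lq L n') = ∑ j, r j * dl D (w j * lq L n')) → ∀ j, r j ∈ E

/-- (SMx, 150 lines, uses ALf, Adl; adaptation of SG/AMx) The generic rank on `S`.
PROOF. As AMx, with `n ∈ S` everywhere (`S` is not empty, so `s = 0` is possible). -/
def S_SMx : Prop :=
  ∀ (B : IntermediateField ℚ ℂ) (e m : ℕ) (v : Fin e → ℂ) (L : Fin m → ℂ) (S : Set (Fin m → ℚ)), S.Nonempty →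
    ∃ (s : ℕ) (J : Fin s → Fin e) (Dl : Fin s → Derivation ℚ ℂ ℂ), s ≤ e ∧ Function.Injective J ∧ (∀ a, Dl a ∈ DB B) ∧
      (∃ n ∈ S, (dm Dl (fun j => v (J j) * lq L n)).det ≠ 0) ∧
      ∀ n ∈ S, ∀ i : Fin e, (dm Dl (fun j => v (J j) * lq L n)).det ≠ 0 → ∃ r : Fin s → ℂ, ∀ D ∈ DB B,
        dl D (v i * lq L n) = ∑ j, r j * dl D (v (J j) * lq L n)

/-- (SNz, 120 lines, uses Adl; adaptation of SG/ANz) The determinants are polynomials in `n`.
PROOF. As ANz: the determinant is `R(n)`, `R ∈ ℂ[X]`. `R(n1) ≠ 0`, `n1 ∈ S`; choose a `ℚ`-linear `ψ : ℂ → ℚ` with `ψ (R(n1)) ≠ 0`; `P` = the polynomial with the coefficients `ψ (coeff μ R)`: `P(n) = ψ (R(n))` for rational `n`, `P(n1) ≠ 0`. -/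
def S_SNz : Prop :=
  ∀ (m s : ℕ) (S : Set (Fin m → ℚ)) (L : Fin m → ℂ) (Dl : Fin s → Derivation ℚ ℂ ℂ) (w : Fin s → ℂ),
    (∃ n ∈ S, (dm Dl (fun j => w j * lq L n)).det ≠ 0) →
    ∃ P : MvPolynomial (Fin m) ℚ, ¬ Van S P ∧ ∀ n : Fin m → ℚ, eval n P ≠ 0 → (dm Dl (fun j => w j * lq L n)).det ≠ 0

/-- (SMb, 200 lines, uses ATc, Acl; adaptation of SG/AMb) The field `B` of `S`.
PROOF. As AMb: `𝒯` = the `τ` with an algebraically independent `b : Fin τ → ℂ` and `P`, `¬ Van S P`, with `b i ∈ E_n` for all `n ∈ S` with `P(n) ≠ 0`. `0 ∈ 𝒯` (`P = 1`). `τ ≤ e` by ATc at some `n ∈ S` with `P(n) ≠ 0`. Products: `¬ Van S (P * P')` by `Ird`. -/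
def S_SMb : Prop :=
  ∀ (e m : ℕ) (v : Fin e → ℂ) (L : Fin m → ℂ) (S : Set (Fin m → ℚ)), Ird S →
    ∃ (τ : ℕ) (b : Fin τ → ℂ) (P : MvPolynomial (Fin m) ℚ), AlgebraicIndependent ℚ b ∧ ¬ Van S P ∧
    (∀ n ∈ S, eval n P ≠ 0 → cl (Set.range b) ≤ cl (Set.range fun k => Complex.exp (v k * lq L n))) ∧
    ∀ (x : ℂ) (P' : MvPolynomial (Fin m) ℚ), ¬ Van S P' →
      (∀ n ∈ S, eval n P' ≠ 0 → x ∈ cl (Set.range fun k => Complex.exp (v k * lq L n))) → x ∈ cl (Set.range b)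

/-- (SMr, 200 lines, uses SKD, SNz, Acl, Adl; adaptation of SG/AMr) The kernel is defined over `B = cl (range b)`.
PROOF. SNz with `w j = v (J j)`: `P1`. Let `n' ∈ S` with nonzero determinant and `r` with the equation for `i`. For every `n0 ∈ S` with `(f P P1)(n0) ≠ 0` there is a curve `γ`, `Crv S n0 γ`; apply SKD to `B ≤ E = cl (range fun k => exp (v k lq L n0))`, `w j = v (J j)`, `w0 = v i`: `r j ∈ E`. The last hypothesis on `b` with `P' = f P P1` (`¬ Van` by `Ird`): `r j ∈ cl (range b)`. -/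
def S_SMr : Prop :=
  ∀ (e m τ s : ℕ) (v : Fin e → ℂ) (L : Fin m → ℂ) (S : Set (Fin m → ℚ)) (b : Fin τ → ℂ) (f P : MvPolynomial (Fin m) ℚ) (J : Fin s → Fin e)
    (Dl : Fin s → Derivation ℚ ℂ ℂ), Ird S → ¬ Van S f → ¬ Van S P →
    (∀ n0 ∈ S, eval n0 f ≠ 0 → ∃ γ : Fin m → PowerSeries ℚ, Crv S n0 γ) →
    (∀ n ∈ S, eval n P ≠ 0 → cl (Set.range b) ≤ cl (Set.range fun k => Complex.exp (v k * lq L n))) →
    (∀ (x : ℂ) (P' : MvPolynomial (Fin m) ℚ), ¬ Van S P' →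
      (∀ n ∈ S, eval n P' ≠ 0 → x ∈ cl (Set.range fun k => Complex.exp (v k * lq L n))) → x ∈ cl (Set.range b)) →
    (∀ a, Dl a ∈ DB (cl (Set.range b))) → (∃ n ∈ S, (dm Dl (fun j => v (J j) * lq L n)).det ≠ 0) →
    (∀ n ∈ S, ∀ i : Fin e, (dm Dl (fun j => v (J j) * lq L n)).det ≠ 0 → ∃ r : Fin s → ℂ, ∀ D ∈ DB (cl (Set.range b)),
        dl D (v i * lq L n) = ∑ j, r j * dl D (v (J j) * lq L n)) →
    ∀ n ∈ S, ∀ (i : Fin e) (r : Fin s → ℂ), (dm Dl (fun j => v (J j) * lq L n)).det ≠ 0 →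
      (∀ D ∈ DB (cl (Set.range b)), dl D (v i * lq L n) = ∑ j, r j * dl D (v (J j) * lq L n)) → ∀ j, r j ∈ cl (Set.range b)

/-! ### Linear algebra and the main theorem -/

/-- (SLa, 250 lines; compare SG/ALa) Spaces of matrices of bounded rank, along curves.
PROOF. Let `n1 ∈ S` with `f(n1) ≠ 0` and `a = rank A(n1)` maximal (`a ≤ e - h`) among these. `Γ = ker A(n1)`, dimension `e - a ≥ h`. For `w ∈ ℚ^r` let `γ` be the curve in the hypothesis, `τ(w) i = coeff 1 (γ i)`, so `τ(w) (b i) = w i`. CLAIM: `A(τ(w)) Γ ⊆ im A(n1)`. Choose `w_1, …, w_a ∈ ℚ^e` with `A(n1) w_l` a basis of the image. Suppose `g ∈ Γ`, `A(τ(w)) g ∉ im A(n1)`.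
The `a + 1` vectors `A(n1) w_l`, `A(τ(w)) g` are linearly independent; choose a linear map `p : W → ℚ^(a+1)` which maps them to the unit vectors. Let `G ∈ ℚ[X]` be the determinant of the matrix with the columns `p (A(X) w_l)`, `p (A(X) g)` (`A(X) = ∑ X_i A(e_i)`, linear forms), so `G(n)` is the determinant for `n ∈ ℚ^m`. For `n ∈ S` with `f(n) ≠ 0` the rank of `A(n)` is `≤ a`, so `G(n) = 0`. So `Van S (f * G)`,
`aeval γ (f * G) = 0`; `aeval γ f` has constant coefficient `f(n1) ≠ 0`, so `aeval γ G = 0` (domain). But the coefficient of `t` in `aeval γ G`, the determinant of the matrix with the columns `p (A(γ) w_l)`, `p (A(γ) g)`: the last column is divisible by `t` (`A(n1) g = 0`), with quotient of constant coefficients `p (A(τ(w)) g)`, so it is the determinant of `p (A(n1) w_l)`, `p (A(τ(w)) g)`, which is `± 1`: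
contradiction. `𝒯` = the span of all `τ(w)`: its projection to the coordinates `b` is `ℚ^r`, so `finrank 𝒯 ≥ r`, and `A(t) Γ ⊆ im A(n1)` for `t ∈ 𝒯`. `t ↦ A(t)|Γ` is a linear map `𝒯 → Hom(Γ, im A(n1))`, a space of dimension `(e - a) a ≤ e²`; `Λ` = its kernel. -/
def S_SLa : Prop :=
  ∀ (e m r h : ℕ) (S : Set (Fin m → ℚ)) (b : Fin r → Fin m) (W : Type) [AddCommGroup W] [Module ℚ W] (A : (Fin m → ℚ) →ₗ[ℚ] (Fin e → ℚ) →ₗ[ℚ] W)
    (f : MvPolynomial (Fin m) ℚ), ¬ Van S f →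
    (∀ n0 ∈ S, eval n0 f ≠ 0 → ∀ w : Fin r → ℚ, ∃ γ : Fin m → PowerSeries ℚ, Crv S n0 γ ∧ ∀ i, PowerSeries.coeff 1 (γ (b i)) = w i) →
    (∀ n ∈ S, eval n f ≠ 0 → h ≤ Module.finrank ℚ (LinearMap.ker (A n))) →
    ∃ (Γ : Submodule ℚ (Fin e → ℚ)) (Λ : Submodule ℚ (Fin m → ℚ)), h ≤ Module.finrank ℚ Γ ∧ r ≤ Module.finrank ℚ Λ + e * e ∧
      ∀ n ∈ Λ, ∀ γ ∈ Γ, A n γ = 0

/-- (SMt, 100 lines, uses TTH, ATc, AEx, Acl; copy of SG/AMt) The field `B` is large.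
PROOF. As AMt; only the two hypotheses on `m` are now about `r`: `q = finrank Λ ≥ r - e² ≥ 6 (e+1)² - e² ≥ 5 (g+1)²`. -/
def S_SMt : Prop :=
  ∀ (e m r τ : ℕ) (v : Fin e → ℂ) (L : Fin m → ℂ) (b : Fin τ → ℂ) (Γ : Submodule ℚ (Fin e → ℚ)) (Λ : Submodule ℚ (Fin m → ℚ)),
    LinearIndependent ℚ (Fin.cons 1 v : Fin (e + 1) → ℂ) → (∀ k, IsAlgebraic ℚ (v k)) → LinearIndependent ℚ L → (∀ i, IsAlgebraic ℚ (Complex.exp (L i))) →
    6 * (e + 1) ^ 2 ≤ r → r ≤ Module.finrank ℚ Λ + e * e →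
    (∀ n ∈ Λ, ∀ γ ∈ Γ, Complex.exp ((∑ k, (γ k : ℂ) * v k) * lq L n) ∈ cl (Set.range b)) → Module.finrank ℚ Γ ≤ τ

/-- (SMn, 250 lines, uses SMb, SMx, SMr, AVn, SNz, SLa, SMt, SCu, AIn, ATc, Acl, AEx, Adl; adaptation of SG/AMn) THE MAIN THEOREM: an irreducible set of bad points has dimension less than `6 (e+1)²`.
PROOF. Suppose `6 (e+1)² ≤ r`. `Tr x r`: `c : Fin r → Fin m`. SCu: `f`. SMb: `τ, b, P`; `B = cl (range b)`. SMx for `B`: `s, J, Dl`. SNz: `P1`, `¬ Van S P1`, `P1(n) ≠ 0 → det (dm Dl (v (J j) lq L n)) ≠ 0`. Let `n ∈ S`, `P1(n) ≠ 0`: by SMx there are `r i : Fin s → ℂ` for all `i`, in `B` by SMr. AVn with `w k = v k lq L n`: `VB` with `exp (∑ q k * (v k lq L n)) ∈ B` for `q ∈ VB` and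
`e ≤ s + finrank VB`. AEx: the subspace `U = {u | exp u ∈ B}` of `ℂ`, `W = ℂ ⧸ U`, `A n q` = the class of `(∑ q k v k) lq L n` (bilinear). `ker (A n) ⊇ VB`, so its dimension is at least `h = e - s`. SLa with `f * P1` (`¬ Van` by `Ird`; curves exist at points with `(f P1)(n0) ≠ 0`): `Γ, Λ` with `e - s ≤ finrank Γ`. SMt: `finrank Γ ≤ τ`. So `e ≤ s + τ`. Choose `n ∈ S` with
`(P P1)(n) ≠ 0` (`Ird`). `g j = exp (v (J j) lq L n)`: the matrix `Dl a (g j) = dl (Dl a) (v (J j) lq L n) g j` has nonzero determinant, so AIn: `Sum.elim b g` is algebraically independent, `τ + s` elements of `cl (range fun k => exp (v k lq L n))`. ATc: `fun k => exp (v k lq L n)` is algebraically independent (`e ≤ τ + s`), contradiction to the hypothesis on `S`. -/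
def S_SMn : Prop :=
  ∀ (e m r : ℕ) (v : Fin e → ℂ) (L : Fin m → ℂ) (S : Set (Fin m → ℚ)) (Ω : Type) [Field Ω] [CharZero Ω] (x : Fin m → Ω),
    LinearIndependent ℚ (Fin.cons 1 v : Fin (e + 1) → ℂ) → (∀ k, IsAlgebraic ℚ (v k)) →
    LinearIndependent ℚ L → (∀ i, IsAlgebraic ℚ (Complex.exp (L i))) → Ird S →
    (∀ n ∈ S, ¬ AlgebraicIndependent ℚ (fun k => Complex.exp (v k * lq L n))) → Gp S x → Tr x r → r < 6 * (e + 1) ^ 2

/-! ### Counting -/

/-- (SGp, 80 lines) Existence of a generic point.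
PROOF. `I = {P | Van S P}` is an ideal, prime by `Ird` (`1 ∉ I` as `S` is not empty). `Ω = FractionRing (MvPolynomial (Fin m) ℚ ⧸ I)` (a `ℚ`-algebra, so of characteristic zero), `x i` = the class of `X i`; `aeval x P` = the class of `P`. -/
def S_SGp : Prop :=
  ∀ (m : ℕ) (S : Set (Fin m → ℚ)), Ird S → ∃ (Ω : Type) (_ : Field Ω) (_ : CharZero Ω) (x : Fin m → Ω), Gp S x

/-- (SCt, 200 lines) Counting integral points outside a hypersurface.
PROOF. For each `j : Fin m` the element `x j` is algebraic over `ℚ(y)`, `y = x ∘ b`; clear denominators (`IntermediateField.mem_adjoin_range_iff`): `p_j ∈ ℚ[Y][Z]`, `p_j ≠ 0`, `p_j(y, x j) = 0`. The leading coefficient `c_j ∈ ℚ[Y]` is not zero. `f = ∏_j rename b (c_j)`: `aeval x f = ∏ c_j(y) ≠ 0` (independence), so `¬ Van S f`. Let `n` be in the set. The polynomial `p_j(X_b, X_j)` vanishes at `x`, so at `n`: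
`n_j` is a root of the polynomial `p_j(n_b, Z) ∈ ℚ[Z]`, whose leading coefficient `c_j(n_b) ≠ 0`; so there are at most `D_j = natDegree p_j` values for `n_j`, given `n_b = n ∘ b ∈ [-H, H]^r`. So at most `(2H+1)^r ∏ D_j ≤ 3^r ∏ D_j H^r` points (`H ≥ 1`): `C = 3^r ∏ D_j`. -/
def S_SCt : Prop :=
  ∀ (m r : ℕ) (S : Set (Fin m → ℚ)) (Ω : Type) [Field Ω] [CharZero Ω] (x : Fin m → Ω), Gp S x → Tr x r →
    ∃ (f : MvPolynomial (Fin m) ℚ) (C : ℕ), ¬ Van S f ∧ ∀ H : ℕ, 1 ≤ H →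
      Set.ncard {n : Fin m → ℤ | (∀ i, |n i| ≤ (H : ℤ)) ∧ (fun i => (n i : ℚ)) ∈ S ∧ eval (fun i => (n i : ℚ)) f ≠ 0} ≤ C * H ^ r

/-- (SNo, 150 lines, uses SGp, SCt, TrE) Noetherian induction.
PROOF. For an ideal `I` of `ℚ[X]` let `S_I` be the set of the `n ∈ Bad` at which all `P ∈ I` vanish. CLAIM: there is `C` with at most `C H^c` integral points of `S_I` in the box for all `H ≥ 1`. Induction on `I` (`ℚ[X]` is Noetherian: the relation `>` on ideals is well founded, `WellFoundedGT`). If `S_I` is empty: `C = 0`. If `S_I` is not `Ird`: `Van S_I (P * Q)`, `¬ Van S_I P`, `¬ Van S_I Q`: then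
`P, Q ∉ I`, `S_I ⊆ S_(I + (P)) ∪ S_(I + (Q))`, both ideals are greater than `I`. If `S_I` is `Ird`: SGp: `Ω, x`; TrE: `Tr x r`; the hypothesis: `r ≤ c`. SCt: `f, C`; the points with `f(n) ≠ 0` are at most `C H^r ≤ C H^c`, the others are in `S_(I + (f))`, and `f ∉ I`. (All sets are finite: subsets of the box.) Apply this to `I = ⊥`. -/
def S_SNo : Prop :=
  ∀ (m c : ℕ) (Bad : Set (Fin m → ℚ)),
    (∀ (S : Set (Fin m → ℚ)) (Ω : Type) [Field Ω] [CharZero Ω] (x : Fin m → Ω) (r : ℕ), S ⊆ Bad → Ird S → Gp S x → Tr x r → r ≤ c) →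
    ∃ C : ℕ, ∀ H : ℕ, 1 ≤ H → Set.ncard {n : Fin m → ℤ | (∀ i, |n i| ≤ (H : ℤ)) ∧ (fun i => (n i : ℚ)) ∈ Bad} ≤ C * H ^ c

/-- (SFn, 100 lines, uses BBa, BVf, SMn, SNo, AEx, Acl) THE FINAL THEOREM.
PROOF. BBa: `v`. `Bad` = the set of the `n ∈ ℚ^m` for which `fun k => exp (v k * lq L n)` is algebraically dependent. SMn: the hypothesis of SNo with `c = 6 (e+1)² - 1`. If `n ∈ ℤ^m` and `∑ n_i L_i = lq L n` is not good for `F` then `n ∈ Bad`: `exp (lq L n)` is algebraic (AEx for `B = cl ∅`, whose elements are algebraic over `ℚ`; or directly, a product of powers of algebraic numbers), so this is BVf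
(`v k * lq L n`). Monotonicity of `ncard` (finite sets). -/
def S_SFn : Prop :=
  ∀ (e m : ℕ) (F : IntermediateField ℚ ℂ), FiniteDimensional ℚ F → Module.finrank ℚ F = e + 1 →
    ∀ L : Fin m → ℂ, LinearIndependent ℚ L → (∀ i, IsAlgebraic ℚ (Complex.exp (L i))) →
    ∃ C : ℕ, ∀ H : ℕ, 1 ≤ H → Set.ncard {n : Fin m → ℤ | (∀ i, |n i| ≤ (H : ℤ)) ∧ ¬ Good F (∑ i, (n i : ℂ) * L i)} ≤ C * H ^ (6 * (e + 1) ^ 2 - 1)

end Pool.Agent.SGA
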